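import Pool.Agent.W111.BrExt

set_option autoImplicit false

namespace Pool.Agent.W111.Bridged

open SimpleGraph

variable {V : Type*} (G : SimpleGraph V)

/-- root of the component -/
noncomputable def rt (v : V) : V := Quot.out (G.connectedComponentMk v)

lemma rt_reach (v : V) : G.Reachable v (rt G v) := by
  have h : G.connectedComponentMk (rt G v) = G.connectedComponentMk v := Quot.out_eq _
  exact (ConnectedComponent.exact h).symm

lemma rt_eq {v w : V} (h : G.Adj v w) : rt G v = rt G w := by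
  unfold rt
  rw [ConnectedComponent.sound h.reachable]

/-- level -/
noncomputable def lev (v : V) : ℕ := G.dist v (rt G v)

/-- lower neighbours -/
def Cs (v : V) : Set V := {u | G.Adj v u ∧ lev G u + 1 = lev G v}

lemma Cs_nonempty {v : V} {k : ℕ} (h : lev G v = k + 1) : (Cs G v).Nonempty := by
  obtain ⟨a, ha, hd⟩ := closer (G := G) (x := v) (y := rt G v) (k := k) h
  refine ⟨a, ha, ?_⟩
  rw [h]
  unfold lev
  rw [← rt_eq G ha, hd]

open Classical in
/-- the father with respect to a well-order -/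
noncomputable def fa (r : V → V → Prop) (hr : IsWellOrder V r) (v : V) : V :=
  if h : (Cs G v).Nonempty then hr.wf.min (Cs G v) h else v

lemma fa_mem (r : V → V → Prop) (hr : IsWellOrder V r) {v : V} (h : (Cs G v).Nonempty) :
    fa G r hr v ∈ Cs G v := by
  unfold fa
  rw [dif_pos h]
  exact WellFounded.min_mem _ _ _

lemma fa_min (r : V → V → Prop) (hr : IsWellOrder V r) {v w : V} (hw : w ∈ Cs G v) :
    ¬ r w (fa G r hr v) := by
  unfold fa
  rw [dif_pos ⟨w, hw⟩]
  exact hr.wf.not_lt_min (Cs G v) hw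

/-- the pulled back lexicographic order -/
noncomputable def nxt (r : {r : V → V → Prop // IsWellOrder V r}) :
    {r : V → V → Prop // IsWellOrder V r} :=
  ⟨(⟨fun v => (fa G r.1 r.2 v, v), fun _ _ h => (Prod.ext_iff.1 h).2⟩ : V ↪ V × V) ⁻¹'o
      (Prod.Lex r.1 WellOrderingRel), by
    have := r.2
    exact (RelEmbedding.preimage _ _).isWellOrder⟩

noncomputable def ords : ℕ → {r : V → V → Prop // IsWellOrder V r}
  | 0 => ⟨WellOrderingRel, inferInstance⟩
  | k + 1 => nxt G (ords k)

lemma ords_succ (k : ℕ) (x v : V) : (ords G (k + 1)).1 x v ↔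
    (ords G k).1 (fa G _ (ords G k).2 x) (fa G _ (ords G k).2 v) ∨
      (fa G _ (ords G k).2 x = fa G _ (ords G k).2 v ∧ WellOrderingRel x v) := by
  show Prod.Lex _ _ _ _ ↔ _
  rw [Prod.lex_def]
  rfl

lemma lev_adj {v w : V} (h : G.Adj v w) : lev G v ≤ lev G w + 1 := by
  unfold lev
  rw [← rt_eq G h]
  exact adj_dist h _

lemma lev_zero {v w : V} (h : G.Adj v w) (h1 : lev G v = 0) (h2 : lev G w = 0) : False := by
  have e1 : v = rt G v := eq_of_dist_zero (rt_reach G v) h1
  have e2 : w = rt G w := eq_of_dist_zero (rt_reach G w) h2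
  exact h.ne (e1.trans ((rt_eq G h).trans e2.symm))

variable {G}

lemma Cs_clique (hG : Br G) {v a b : V} (ha : a ∈ Cs G v) (hb : b ∈ Cs G v) :
    a = b ∨ G.Adj a b := by
  refine (wm hG (lev G v)).1 v (rt G v) a b rfl ha.1 hb.1 ?_ ?_
  · have := ha.2
    unfold lev at this ⊢
    rw [rt_eq G ha.1]
    rw [rt_eq G ha.1] at this
    exact this
  · have := hb.2
    unfold lev at this ⊢
    rw [rt_eq G hb.1]
    rw [rt_eq G hb.1] at this
    exact this

lemma Cs_tri (hG : Br G) {v x : V} (h : G.Adj x v) (hl : lev G x = lev G v) :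
    ∃ w, w ∈ Cs G x ∧ w ∈ Cs G v := by
  have hpos : 1 ≤ lev G v := by
    by_contra hcon
    exact lev_zero G h (by omega) (by omega)
  have hr : rt G x = rt G v := rt_eq G h
  obtain ⟨w, h1, h2, h3⟩ := (wm hG (lev G v)).2 x v (rt G v) h
    (by rw [← hr, ← hl]; rfl) rfl hpos
  have e : lev G w + 1 = lev G v := by
    have : lev G w = G.dist w (rt G v) := by
      unfold lev
      rw [← rt_eq G h2]
    rw [this]; exact h3
  exact ⟨w, ⟨h1, by omega⟩, ⟨h2, e⟩⟩

/-- Domination by the father. -/
lemma dom (hG : Br G) (k : ℕ) : ∀ v x : V, lev G v = k + 1 → lev G x = k + 1 → G.Adj x v →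
    (ords G (k + 1)).1 x v → G.Adj x (fa G _ (ords G k).2 v) := by
  have h4 : NoC4 G := br_noC4 hG
  have h5 : NoC5 G := br_noC5 hG
  induction k with
  | zero =>
    intro v x hv hx hxv _
    have hfv := fa_mem G _ (ords G 0).2 (Cs_nonempty G hv)
    have hfx := fa_mem G _ (ords G 0).2 (Cs_nonempty G hx)
    set fv := fa G _ (ords G 0).2 v
    set fx := fa G _ (ords G 0).2 x
    have l1 : lev G fv = 0 := by have := hfv.2; omega
    have l2 : lev G fx = 0 := by have := hfx.2; omega
    have e1 : fv = rt G fv := eq_of_dist_zero (rt_reach G fv) l1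
    have e2 : fx = rt G fx := eq_of_dist_zero (rt_reach G fx) l2
    have : fv = fx := by
      rw [e1, e2, ← rt_eq G hfv.1, ← rt_eq G hfx.1, rt_eq G hxv]
    rw [this]
    exact hfx.1
  | succ k ih =>
    intro v x hv hx hxv hlt
    have hfv := fa_mem G _ (ords G (k + 1)).2 (Cs_nonempty G hv)
    have hfx := fa_mem G _ (ords G (k + 1)).2 (Cs_nonempty G hx)
    have hminv := fun w (hw : w ∈ Cs G v) => fa_min G _ (ords G (k + 1)).2 hw
    rw [ords_succ] at hlt
    set fv := fa G _ (ords G (k + 1)).2 v with hfvdef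
    set fx := fa G _ (ords G (k + 1)).2 x with hfxdef
    rcases hlt with hlt | ⟨heq, _⟩
    swap
    · rw [← heq]; exact hfx.1
    by_contra hnx
    have := (ords G (k + 1)).2
    obtain ⟨w, hwx, hwv⟩ := Cs_tri hG hxv (hx.trans hv.symm)
    have hwfv : w ≠ fv := by rintro rfl; exact hnx hwx.1
    have hr : (ords G (k + 1)).1 fv w := by
      rcases trichotomous_of (ords G (k + 1)).1 fv w with h | h | h
      · exact h
      · exact absurd h.symm hwfv
      · exact absurd h (hminv w hwv)
    have hwfx : w ≠ fx := by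
      intro h
      rw [h] at hr
      exact asymm_of (ords G (k + 1)).1 hr hlt
    have hrx : (ords G (k + 1)).1 fx w := trans_of (ords G (k + 1)).1 hlt hr
    have a1 : G.Adj fx w := (Cs_clique hG hfx hwx).resolve_left (fun h => hwfx h.symm)
    have a2 : G.Adj fv w := (Cs_clique hG hfv hwv).resolve_left (fun h => hwfv h.symm)
    have hvfx : ¬ G.Adj v fx := by
      intro h
      exact hminv fx ⟨h, by have := hfx.2; omega⟩ hlt
    have hne1 : fx ≠ fv := by
      intro h
      rw [h] at hlt
      exact irrefl_of (ords G (k + 1)).1 _ hlt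
    have hxfv : x ≠ fv := by
      intro h; have := hfv.2; rw [← h] at this; omega
    have hvfx' : v ≠ fx := by
      intro h; have := hfx.2; rw [← h] at this; omega
    have hnf : ¬ G.Adj fx fv := by
      intro h
      exact hvfx (h4 x v fv fx hxv hfv.1 h.symm hfx.1.symm hxfv hvfx' hnx)
    -- induction hypothesis
    have lw : lev G w = k + 1 := by have := hwv.2; omega
    have lfx : lev G fx = k + 1 := by have := hfx.2; omega
    have lfv : lev G fv = k + 1 := by have := hfv.2; omega
    have b1 := ih w fx lw lfx a1 hrx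
    have b2 := ih w fv lw lfv a2 hr
    set g := fa G _ (ords G k).2 w with hgdef
    have hg := fa_mem G _ (ords G k).2 (Cs_nonempty G lw)
    rw [← hgdef] at hg
    have lg : lev G g = k := by have := hg.2; omega
    refine h5 x v fv g fx hxv hfv.1 b2 b1.symm hfx.1.symm hnx ?_ ?_ hvfx
      (fun h => hnf h.symm) hxfv ?_ ?_ hvfx' hne1.symm
    · intro h; have := lev_adj G h; omega
    · intro h; have := lev_adj G h; omega
    · rintro rfl; omega
    · intro h; rw [h] at hv; omega

/-- restriction to a finite set, on the same vertex type -/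
def res (G : SimpleGraph V) (T : Finset V) : SimpleGraph V where
  Adj x y := G.Adj x y ∧ x ∈ T ∧ y ∈ T
  symm := ⟨fun _ _ h => ⟨h.1.symm, h.2.2, h.2.1⟩⟩
  loopless := ⟨fun _ h => h.1.ne rfl⟩

variable (G) in
/-- father -/
noncomputable def F (v : V) : V := fa G _ (ords G (lev G v - 1)).2 v

lemma F_mem {v : V} (h : 1 ≤ lev G v) : F G v ∈ Cs G v :=
  fa_mem G _ _ (Cs_nonempty G (k := lev G v - 1) (by omega))

lemma lev_F (v : V) : lev G (F G v) = lev G v - 1 := by
  rcases Nat.eq_zero_or_pos (lev G v) with h | h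
  · have : F G v = v := by
      unfold F fa
      rw [dif_neg]
      rintro ⟨w, hw⟩
      have := hw.2
      omega
    rw [this]; omega
  · have := (F_mem h).2
    omega

lemma lev_iter (i : ℕ) (v : V) : lev G ((F G)^[i] v) = lev G v - i := by
  induction i with
  | zero => rfl
  | succ i ih => rw [Function.iterate_succ_apply', lev_F, ih]; omega

lemma res_noC4 (h4 : NoC4 G) (T : Finset V) : NoC4 (res G T) := by
  intro a b c d hab hbc hcd hda hac hbd hn
  exact ⟨h4 a b c d hab.1 hbc.1 hcd.1 hda.1 hac hbd (fun h => hn ⟨h, hab.2.1, hbc.2.2⟩),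
    hab.2.2, hcd.2.2⟩

lemma res_noC5 (h5 : NoC5 G) (T : Finset V) : NoC5 (res G T) := by
  intro a b c d e hab hbc hcd hde hea h1 h2 h3 h4 h5' n1 n2 n3 n4 n5
  have ha := hab.2.1
  have hb := hab.2.2
  have hc := hcd.2.1
  have hd := hcd.2.2
  have he := hea.2.1
  exact h5 a b c d e hab.1 hbc.1 hcd.1 hde.1 hea.1 (fun h => h1 ⟨h, ha, hc⟩)
    (fun h => h2 ⟨h, ha, hd⟩) (fun h => h3 ⟨h, hb, hd⟩) (fun h => h4 ⟨h, hb, he⟩)
    (fun h => h5' ⟨h, hc, he⟩) n1 n2 n3 n4 n5

lemma closed_br (hG : Br G) (n : ℕ) : ∀ T : Finset V, T.card = n →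
    (∀ v ∈ T, 1 ≤ lev G v → F G v ∈ T) → Br (res G T) := by
  classical
  induction n with
  | zero =>
    intro T hT _ w c hc hlen
    have h := c.adj_getVert_succ (i := 0) (by omega)
    rw [Finset.card_eq_zero] at hT
    subst hT
    exact absurd h.2.1 (Finset.notMem_empty _)
  | succ n ih =>
    intro T hT hcl
    have hne : T.Nonempty := by
      rw [← Finset.card_pos]; omega
    obtain ⟨v0, hv0, hmax0⟩ := Finset.exists_max_image T (lev G) hne
    obtain ⟨k, hk⟩ : ∃ k, k = lev G v0 := ⟨_, rfl⟩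
    -- the order maximal vertex of the top level
    obtain ⟨v, hvT, hvk, hvmax⟩ : ∃ v ∈ T, lev G v = k ∧
        ∀ x ∈ T, lev G x = k → x ≠ v → (ords G k).1 x v := by
      have := (ords G k).2
      let _ : LinearOrder V := linearOrderOfSTO (ords G k).1
      obtain ⟨v, hv, hm⟩ := Finset.exists_max_image (T.filter fun x => lev G x = k) id
        ⟨v0, by simp [hv0, hk]⟩
      rw [Finset.mem_filter] at hv
      refine ⟨v, hv.1, hv.2, fun x hx hxk hxv => ?_⟩
      have h1 : x ≤ v := hm x (by simp [hx, hxk])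
      exact (lt_of_le_of_ne h1 hxv)
    have hmax : ∀ x ∈ T, lev G x ≤ k := fun x hx => hk ▸ hmax0 x hx
    rcases Nat.eq_zero_or_pos k with hk0 | hkpos
    · intro w c hc hlen
      have h := c.adj_getVert_succ (i := 0) (by omega)
      have h1 := hmax _ h.2.1
      have h2 := hmax _ h.2.2
      exact (lev_zero G h.1 (by omega) (by omega)).elim
    -- remove v
    have hcl' : ∀ w ∈ T.erase v, 1 ≤ lev G w → F G w ∈ T.erase v := by
      intro w hw hw1
      rw [Finset.mem_erase] at hw ⊢
      refine ⟨?_, hcl w hw.2 hw1⟩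
      intro h
      have := lev_F (G := G) w
      rw [h, hvk] at this
      have := hmax w hw.2
      omega
    have hbr := ih (T.erase v) (by rw [Finset.card_erase_of_mem hvT]; omega) hcl'
    have hFv : F G v ∈ T.erase v := by
      rw [Finset.mem_erase]
      refine ⟨?_, hcl v hvT (by omega)⟩
      intro h
      have := lev_F (G := G) v
      rw [h] at this
      omega
    have hFvC : F G v ∈ Cs G v := F_mem (by omega)
    refine ext_main (H := res G T) (H' := res G (T.erase v)) hbr (res_noC4 (br_noC4 hG) T)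
      (res_noC5 (br_noC5 hG) T) (v := v) (u := F G v) ?_ ?_ ?_ ?_ ?_
    · intro x y h
      exact ⟨h.1, Finset.mem_of_mem_erase h.2.1, Finset.mem_of_mem_erase h.2.2⟩
    · intro x h
      exact absurd h.2.1 (by simp)
    · exact ⟨hFvC.1, hvT, Finset.mem_of_mem_erase hFv⟩
    · intro x y hx hy h
      exact ⟨h.1, Finset.mem_erase.2 ⟨hx, h.2.1⟩, Finset.mem_erase.2 ⟨hy, h.2.2⟩⟩
    · intro x h
      have hxT := h.2.2
      have hxv : x ≠ v := h.1.ne.symm
      have hxT' : x ∈ T.erase v := Finset.mem_erase.2 ⟨hxv, hxT⟩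
      have hl1 := hmax x hxT
      have hl2 := lev_adj G h.1
      rcases (by omega : lev G x = k ∨ lev G x + 1 = k) with hx | hx
      · right
        have hlt := hvmax x hxT hx hxv
        have := dom hG (k - 1) v x (by omega) (by omega) h.1.symm
          (by rw [show k - 1 + 1 = k by omega]; exact hlt)
        have hF : fa G _ (ords G (k - 1)).2 v = F G v := by
          clear hlt this
          subst hvk
          rfl
        rw [hF] at this
        exact ⟨this.symm, hFv, hxT'⟩
      · rcases Cs_clique hG (v := v) (a := x) (b := F G v) ⟨h.1, by omega⟩ hFvC with h2 | h2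
        · exact Or.inl h2
        · exact Or.inr ⟨h2.symm, hFv, hxT'⟩

lemma lift_walk {T : Finset V} {x y : V} (q : (res G T).Walk x y) :
    ∀ (hx : x ∈ (T : Set V)) (hy : y ∈ (T : Set V)),
      ∃ q' : (G.induce (T : Set V)).Walk ⟨x, hx⟩ ⟨y, hy⟩, q'.length = q.length := by
  induction q with
  | nil => intro hx hy; exact ⟨Walk.nil, rfl⟩
  | @cons a b c hab q ih =>
    intro hx hy
    have hb : b ∈ (T : Set V) := hab.2.2
    obtain ⟨q', hq'⟩ := ih hb hy
    have hadj : (G.induce (T : Set V)).Adj ⟨a, hx⟩ ⟨b, hb⟩ := hab.1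
    exact ⟨Walk.cons hadj q', by simp [hq']⟩

theorem main (hG : Br G) (S : Finset V) : ∃ T : Finset V, S ⊆ T ∧
    Br (G.induce (T : Set V)) := by
  classical
  refine ⟨S.biUnion fun s => (Finset.range (lev G s + 1)).image fun i => (F G)^[i] s, ?_, ?_⟩
  · intro s hs
    rw [Finset.mem_biUnion]
    exact ⟨s, hs, Finset.mem_image.2 ⟨0, by simp, rfl⟩⟩
  set T := S.biUnion fun s => (Finset.range (lev G s + 1)).image fun i => (F G)^[i] s with hT
  have hcl : ∀ v ∈ T, 1 ≤ lev G v → F G v ∈ T := by
    intro v hv hv1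
    rw [hT, Finset.mem_biUnion] at hv ⊢
    obtain ⟨s, hs, hvs⟩ := hv
    obtain ⟨i, hi, rfl⟩ := Finset.mem_image.1 hvs
    refine ⟨s, hs, Finset.mem_image.2 ⟨i + 1, ?_, by rw [Function.iterate_succ_apply']⟩⟩
    rw [lev_iter] at hv1
    rw [Finset.mem_range] at hi ⊢
    omega
  have hbr := closed_br hG T.card T rfl hcl
  intro u c hc hlen
  let φ : G.induce (T : Set V) →g res G T :=
    ⟨fun x => x.1, fun {a b} h => ⟨h, a.2, b.2⟩⟩
  have hφ : Function.Injective φ := fun a b h => Subtype.ext h
  have hc' : (c.map φ).IsCycle := (Walk.isCycle_map_iff_of_injective hφ).2 hc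
  obtain ⟨i, j, hij, hj, hd⟩ := hbr _ (c.map φ) hc' (by simpa using hlen)
  rw [Walk.length_map] at hj hd
  rw [Walk.getVert_map, Walk.getVert_map] at hd
  refine ⟨i, j, hij, hj, lt_of_le_of_lt ?_ hd⟩
  have hreach : (res G T).Reachable (φ (c.getVert i)) (φ (c.getVert j)) := by
    have hchain : ∀ k < c.length, (G.induce (T : Set V)).Adj (c.getVert k) (c.getVert (k + 1)) :=
      fun k hk => c.adj_getVert_succ hk
    have := reach_chain hchain hij (by omega)
    exact this.map φ
  obtain ⟨q, hq⟩ := hreach.exists_walk_length_eq_dist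
  obtain ⟨q', hq'⟩ := lift_walk q (c.getVert i).2 (c.getVert j).2
  have h3 : (G.induce (T : Set V)).dist (c.getVert i) (c.getVert j) ≤ q'.length := dist_le q'
  omega

end Pool.Agent.W111.Bridged
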