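import Mathlib

set_option autoImplicit false

/-!
# A Brooks type theorem for locally resolved colourings

Let `k ≥ 2`.  A colouring `f : V → Fin k` of the vertices of a graph is *good* if for every edge
`ab` with `f a = f b` there is a vertex `x` with `f x ≠ f a` that is adjacent to exactly one of
`a`, `b`.  We show: every finite connected graph with no clique of size `k + 2`, other than the
complete graph on `k + 1` vertices, has a good colouring with `k` colours.
-/

namespace Pool.Agent.W111.LDim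

open Finset

variable {V : Type*} [DecidableEq V]

/-- `f` is good: every monochromatic edge is resolved by a vertex of another colour. -/
def Good (H : SimpleGraph V) {k : ℕ} (f : V → Fin k) : Prop :=
  ∀ a b, H.Adj a b → f a = f b → ∃ x, f x ≠ f a ∧ ¬ (H.Adj x a ↔ H.Adj x b)

/-- `f` is good on the graph without the vertex `v`. -/
def GoodOff (H : SimpleGraph V) {k : ℕ} (v : V) (f : V → Fin k) : Prop :=
  ∀ a b, a ≠ v → b ≠ v → H.Adj a b → f a = f b →
    ∃ x, x ≠ v ∧ f x ≠ f a ∧ ¬ (H.Adj x a ↔ H.Adj x b)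

/-- `b` is a neighbour of `v` that blocks colour `c` at `v`. -/
def Blk (H : SimpleGraph V) {k : ℕ} (v : V) (f : V → Fin k) (c : Fin k) (b : V) : Prop :=
  b ≠ v ∧ H.Adj v b ∧ f b = c ∧ ∀ x, x ≠ v → f x ≠ c → (H.Adj x v ↔ H.Adj x b)

section state

variable {H : SimpleGraph V} {k : ℕ}

omit [DecidableEq V] in
/-- If `f` is not good there is an unresolved monochromatic edge. -/
lemma not_good {g : V → Fin k} (h : ¬ Good H g) :
    ∃ a b, H.Adj a b ∧ g a = g b ∧ ∀ x, g x ≠ g a → (H.Adj x a ↔ H.Adj x b) := by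
  unfold Good at h
  push Not at h
  obtain ⟨a, b, hab, hg, h⟩ := h
  refine ⟨a, b, hab, hg, fun x hx => ?_⟩
  have := h x hx
  tauto

/-- Step 1: every colour is blocked at `v`. -/
lemma exists_blk (hno : ∀ g : V → Fin k, ¬ Good H g) {v : V} {f : V → Fin k}
    (hf : GoodOff H v f) (c : Fin k) : ∃ b, Blk H v f c b := by
  obtain ⟨a, b, hab, hg, h⟩ := not_good (hno (Function.update f v c))
  have key : ∀ d, H.Adj v d → Function.update f v c v = Function.update f v c d →
      (∀ x, Function.update f v c x ≠ Function.update f v c v → (H.Adj x v ↔ H.Adj x d)) →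
      Blk H v f c d := by
    intro d hd hgd hx
    have hdv : d ≠ v := hd.ne'
    refine ⟨hdv, hd, ?_, fun x hxv hxc => hx x ?_⟩
    · simpa [Function.update_of_ne hdv] using hgd.symm
    · simpa [Function.update_of_ne hxv] using hxc
  by_cases hav : a = v
  · subst hav
    exact ⟨b, key b hab hg h⟩
  · by_cases hbv : b = v
    · subst hbv
      exact ⟨a, key a hab.symm hg.symm (fun x hx => (h x (by rw [hg]; exact hx)).symm)⟩
    · exfalso
      rw [Function.update_of_ne hav, Function.update_of_ne hbv] at hg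
      obtain ⟨x, hxv, hxa, hx⟩ := hf a b hav hbv hab hg
      exact hx (h x (by rw [Function.update_of_ne hxv, Function.update_of_ne hav]; exact hxa))

/-- Clique lemma: no edge inside a colour class of the neighbourhood of `v`. -/
lemma no_edge (hfree : H.CliqueFree (k + 2)) {v : V} {f : V → Fin k}
    (hB : ∀ c, ∃ b, Blk H v f c b) {p q : V} (hp : H.Adj v p) (hq : H.Adj v q)
    (hpq : H.Adj p q) (hf : f p = f q) : False := by
  choose b hb using hB
  have hinj : Function.Injective b := by
    intro c c' h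
    rw [← (hb c).2.2.1, ← (hb c').2.2.1, h]
  set c := f p with hc
  have hvb : ∀ c', H.Adj v (b c') := fun c' => (hb c').2.1
  have hbb : ∀ c' c'', c' ≠ c'' → H.Adj (b c') (b c'') := by
    intro c' c'' hne
    have := (hb c'').2.2.2 (b c') (hb c').1 (by rw [(hb c').2.2.1]; exact hne)
    exact this.1 (hvb c').symm
  have hpb : ∀ c', c' ≠ c → H.Adj p (b c') := by
    intro c' hne
    exact ((hb c').2.2.2 p hp.ne' (by rw [← hc]; exact hne.symm)).1 hp.symm
  have hqb : ∀ c', c' ≠ c → H.Adj q (b c') := by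
    intro c' hne
    exact ((hb c').2.2.2 q hq.ne' (by rw [← hf]; exact hne.symm)).1 hq.symm
  set T : Finset V := (univ.erase c).image b with hT
  have hTc : T.card = k - 1 := by
    rw [hT, card_image_of_injective _ hinj, card_erase_of_mem (mem_univ _), card_univ,
      Fintype.card_fin]
  have hTmem : ∀ x, x ∈ T → ∃ c', c' ≠ c ∧ x = b c' := by
    intro x hx
    rw [hT, mem_image] at hx
    obtain ⟨c', hc', rfl⟩ := hx
    exact ⟨c', (mem_erase.1 hc').1, rfl⟩
  have hk : 0 < k := lt_of_le_of_lt (Nat.zero_le _) c.2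
  have hqT : q ∉ T := by
    intro h
    obtain ⟨c', hne, rfl⟩ := hTmem q h
    exact hne ((hb c').2.2.1.symm.trans hf.symm)
  have hpT : p ∉ insert q T := by
    intro h
    rcases mem_insert.1 h with h | h
    · exact hpq.ne h
    · obtain ⟨c', hne, rfl⟩ := hTmem p h
      exact hne ((hb c').2.2.1.symm.trans hc.symm)
  have hvT : v ∉ insert p (insert q T) := by
    intro h
    rcases mem_insert.1 h with h | h
    · exact hp.ne h
    · rcases mem_insert.1 h with h | h
      · exact hq.ne h
      · obtain ⟨c', hne, h'⟩ := hTmem v h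
        exact (hvb c').ne h'
  refine hfree (insert v (insert p (insert q T))) ⟨?_, ?_⟩
  · intro x hx y hy hxy
    simp only [coe_insert, Set.mem_insert_iff, mem_coe] at hx hy
    rcases hx with rfl | rfl | rfl | hx
    · rcases hy with rfl | rfl | rfl | hy
      · exact absurd rfl hxy
      · exact hp
      · exact hq
      · obtain ⟨c', _, rfl⟩ := hTmem y hy
        exact hvb c'
    · rcases hy with rfl | rfl | rfl | hy
      · exact hp.symm
      · exact absurd rfl hxy
      · exact hpq
      · obtain ⟨c', hne, rfl⟩ := hTmem y hy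
        exact hpb c' hne
    · rcases hy with rfl | rfl | rfl | hy
      · exact hq.symm
      · exact hpq.symm
      · exact absurd rfl hxy
      · obtain ⟨c', hne, rfl⟩ := hTmem y hy
        exact hqb c' hne
    · obtain ⟨c', hne, rfl⟩ := hTmem x hx
      rcases hy with rfl | rfl | rfl | hy
      · exact (hvb c').symm
      · exact (hpb c' hne).symm
      · exact (hqb c' hne).symm
      · obtain ⟨c'', hne', rfl⟩ := hTmem y hy
        exact hbb c' c'' (fun h => hxy (by rw [h]))
  · rw [card_insert_of_notMem hvT, card_insert_of_notMem hpT, card_insert_of_notMem hqT, hTc]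
    omega

/-- Step 3: the blocking vertex is unique. -/
lemma blk_unique (hk : 2 ≤ k) (hfree : H.CliqueFree (k + 2))
    (hno : ∀ g : V → Fin k, ¬ Good H g) {v : V} {f : V → Fin k}
    (hf : GoodOff H v f) {c : Fin k} {b b' : V} (hb : Blk H v f c b) (hb' : Blk H v f c b') :
    b = b' := by
  by_contra hne
  have hB : ∀ c, ∃ b, Blk H v f c b := exists_blk hno hf
  have : Nontrivial (Fin k) := Fin.nontrivial_iff_two_le.2 hk
  obtain ⟨c', hc'⟩ := exists_ne c
  have hnadj : ∀ d, Blk H v f c d → d ≠ b → ¬ H.Adj b d := by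
    intro d hd _ h
    exact no_edge hfree hB hb.2.1 hd.2.1 h (hb.2.2.1.trans hd.2.2.1.symm)
  apply hno (Function.update (Function.update f v c) b c')
  set g := Function.update (Function.update f v c) b c' with hg
  have gb : g b = c' := by simp [hg]
  have gv : g v = c := by
    rw [hg, Function.update_of_ne hb.1.symm, Function.update_self]
  have go : ∀ x, x ≠ v → x ≠ b → g x = f x := by
    intro x hx hx'
    rw [hg, Function.update_of_ne hx', Function.update_of_ne hx]
  -- edges at `v`
  have hV : ∀ d, H.Adj v d → g v = g d → ∃ x, g x ≠ g v ∧ ¬ (H.Adj x v ↔ H.Adj x d) := by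
    intro d hd hgd
    have hdv : d ≠ v := hd.ne'
    have hdb : d ≠ b := by
      rintro rfl
      rw [gv, gb] at hgd
      exact hc' hgd.symm
    have hfd : f d = c := by rw [← go d hdv hdb, ← hgd, gv]
    by_cases hbd : Blk H v f c d
    · refine ⟨b, by rw [gb, gv]; exact hc', ?_⟩
      intro h
      exact hnadj d hbd hdb (h.1 hb.2.1.symm)
    · have : ∃ x, x ≠ v ∧ f x ≠ c ∧ ¬ (H.Adj x v ↔ H.Adj x d) := by
        by_contra hcon
        push Not at hcon
        refine hbd ⟨hdv, hd, hfd, fun x hx hxc => ?_⟩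
        have := hcon x hx hxc
        tauto
      obtain ⟨x, hxv, hxc, hx⟩ := this
      have hxb : x ≠ b := by
        rintro rfl
        exact hxc hb.2.2.1
      exact ⟨x, by rw [go x hxv hxb, gv]; exact hxc, hx⟩
  -- edges at `b`
  have hBd : ∀ d, d ≠ v → H.Adj b d → g b = g d →
      ∃ x, g x ≠ g b ∧ ¬ (H.Adj x b ↔ H.Adj x d) := by
    intro d hdv hd hgd
    have hdb : d ≠ b := hd.ne'
    have hfd : f d = c' := by rw [← go d hdv hdb, ← hgd, gb]
    have h1 : H.Adj d v := (hb.2.2.2 d hdv (by rw [hfd]; exact hc')).2 hd.symm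
    have h2 : H.Adj d b' := (hb'.2.2.2 d hdv (by rw [hfd]; exact hc')).1 h1
    refine ⟨b', ?_, ?_⟩
    · rw [go b' hb'.1 (Ne.symm hne), gb, hb'.2.2.1]
      exact hc'.symm
    · intro h
      exact hnadj b' hb' (Ne.symm hne) (h.2 h2.symm).symm
  intro a d had hgad
  by_cases hav : a = v
  · subst hav; exact hV d had hgad
  by_cases hdv : d = v
  · subst hdv
    obtain ⟨x, hx, hx'⟩ := hV a had.symm hgad.symm
    exact ⟨x, by rw [hgad]; exact hx, fun h => hx' h.symm⟩
  by_cases hab : a = b
  · subst hab; exact hBd d hdv had hgad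
  by_cases hdb : d = b
  · subst hdb
    obtain ⟨x, hx, hx'⟩ := hBd a hav had.symm hgad.symm
    exact ⟨x, by rw [hgad]; exact hx, fun h => hx' h.symm⟩
  rw [go a hav hab, go d hdv hdb] at hgad
  obtain ⟨x, hxv, hxa, hx⟩ := hf a d hav hdv had hgad
  by_cases hxb : x = b
  · subst hxb
    refine ⟨v, ?_, ?_⟩
    · rw [gv, go a hav hab, ← hb.2.2.1]; exact hxa
    · intro h
      apply hx
      have hac : f a ≠ c := by rw [← hb.2.2.1]; exact hxa.symm
      have h1 := hb.2.2.2 a hav hac
      have h2 := hb.2.2.2 d hdv (by rw [← hgad]; exact hac)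
      rw [H.adj_comm x a, H.adj_comm x d, ← h1, ← h2, H.adj_comm a v, H.adj_comm d v]
      exact h
  · exact ⟨x, by rw [go x hxv hxb, go a hav hab]; exact hxa, hx⟩

/-- Step 4: rotation. -/
lemma rotate (hk : 2 ≤ k) (hfree : H.CliqueFree (k + 2))
    (hno : ∀ g : V → Fin k, ¬ Good H g) {v : V} {f : V → Fin k}
    (hf : GoodOff H v f) {c : Fin k} {b : V} (hb : Blk H v f c b) :
    GoodOff H b (Function.update f v c) := by
  have hV : ∀ d, d ≠ b → H.Adj v d → c = f d →
      ∃ x, x ≠ b ∧ Function.update f v c x ≠ c ∧ ¬ (H.Adj x v ↔ H.Adj x d) := by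
    intro d hdb hd hfd
    have hdv : d ≠ v := hd.ne'
    have hbd : ¬ Blk H v f c d := fun h => hdb (blk_unique hk hfree hno hf h hb)
    have : ∃ x, x ≠ v ∧ f x ≠ c ∧ ¬ (H.Adj x v ↔ H.Adj x d) := by
      by_contra hcon
      push Not at hcon
      refine hbd ⟨hdv, hd, hfd.symm, fun x hx hxc => ?_⟩
      have := hcon x hx hxc
      tauto
    obtain ⟨x, hxv, hxc, hx⟩ := this
    have hxb : x ≠ b := by
      rintro rfl
      exact hxc hb.2.2.1
    exact ⟨x, hxb, by rw [Function.update_of_ne hxv]; exact hxc, hx⟩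
  intro a d hab hdb had hg
  by_cases hav : a = v
  · subst hav
    rw [Function.update_self] at hg ⊢
    rw [Function.update_of_ne had.ne'] at hg
    exact hV d hdb had hg
  by_cases hdv : d = v
  · subst hdv
    rw [Function.update_self] at hg
    have hg' := hg
    rw [Function.update_of_ne hav] at hg'
    obtain ⟨x, hx1, hx2, hx3⟩ := hV a hab had.symm hg'.symm
    exact ⟨x, hx1, by rw [hg]; exact hx2, fun h => hx3 h.symm⟩
  rw [Function.update_of_ne hav, Function.update_of_ne hdv] at hg
  obtain ⟨x, hxv, hxa, hx⟩ := hf a d hav hdv had hg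
  rw [Function.update_of_ne hav]
  by_cases hxb : x = b
  · subst hxb
    refine ⟨v, hb.1.symm, ?_, ?_⟩
    · rw [Function.update_self, ← hb.2.2.1]; exact hxa
    · intro h
      apply hx
      have hac : f a ≠ c := by rw [← hb.2.2.1]; exact hxa.symm
      have h1 := hb.2.2.2 a hav hac
      have h2 := hb.2.2.2 d hdv (by rw [← hg]; exact hac)
      rw [H.adj_comm x a, H.adj_comm x d, ← h1, ← h2, H.adj_comm a v, H.adj_comm d v]
      exact h
  · exact ⟨x, hxb, by rw [Function.update_of_ne hxv]; exact hxa, hx⟩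

/-- Step 5: critical edges. -/
lemma critical (hk : 2 ≤ k) (hfree : H.CliqueFree (k + 2))
    (hno : ∀ g : V → Fin k, ¬ Good H g) {v : V} {f : V → Fin k}
    (hf : GoodOff H v f) {c c' : Fin k} (hc : c' ≠ c) {b x : V} (hb : Blk H v f c b)
    (hxv : x ≠ v) (hxb : x ≠ b) (hfx : f x = c) (hx : H.Adj v x ∨ H.Adj b x) :
    ∃ p q, H.Adj p q ∧ p ≠ v ∧ q ≠ v ∧ p ≠ x ∧ q ≠ x ∧ f p = c' ∧ f q = c' ∧ H.Adj x p ∧
      ¬ H.Adj x q ∧ (H.Adj v p ↔ H.Adj v q) ∧
      ∀ z, z ≠ v → z ≠ x → f z ≠ c' → (H.Adj z p ↔ H.Adj z q) := by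
  have hB : ∀ c, ∃ b, Blk H v f c b := exists_blk hno hf
  have hone : ¬ (H.Adj x v ↔ H.Adj x b) := by
    intro h
    have h1 : H.Adj x v ∧ H.Adj x b := by
      rcases hx with hx | hx
      · exact ⟨hx.symm, h.1 hx.symm⟩
      · exact ⟨h.2 hx.symm, hx.symm⟩
    exact no_edge hfree hB h1.1.symm hb.2.1 h1.2 (hfx.trans hb.2.2.1.symm)
  obtain ⟨a, d, had, hgad, h⟩ := not_good (hno (Function.update (Function.update f v c) x c'))
  set g := Function.update (Function.update f v c) x c' with hg
  have gx : g x = c' := by simp [hg]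
  have gv : g v = c := by
    rw [hg, Function.update_of_ne hxv.symm, Function.update_self]
  have go : ∀ y, y ≠ v → y ≠ x → g y = f y := by
    intro y hy hy'
    rw [hg, Function.update_of_ne hy', Function.update_of_ne hy]
  have hV : ∀ d, H.Adj v d → g v = g d → (∀ z, g z ≠ g v → (H.Adj z v ↔ H.Adj z d)) → False := by
    intro d hd hgd hres
    have hdv : d ≠ v := hd.ne'
    have hdx : d ≠ x := by
      rintro rfl
      rw [gv, gx] at hgd
      exact hc hgd.symm
    have hfd : f d = c := by rw [← go d hdv hdx, ← hgd, gv]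
    by_cases hdb : d = b
    · subst hdb
      exact hone (hres x (by rw [gx, gv]; exact hc))
    · apply hdb
      refine blk_unique hk hfree hno hf ⟨hdv, hd, hfd, fun z hzv hzc => hres z ?_⟩ hb
      have hzx : z ≠ x := by
        rintro rfl
        exact hzc hfx
      rw [go z hzv hzx, gv]
      exact hzc
  have hX : ∀ d, d ≠ v → H.Adj x d → g x = g d → (∀ z, g z ≠ g x → (H.Adj z x ↔ H.Adj z d)) →
      False := by
    intro d hdv hd hgd hres
    have hdx : d ≠ x := hd.ne'
    have hfd : f d = c' := by rw [← go d hdv hdx, ← hgd, gx]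
    have h1 := hres v (by rw [gv, gx]; exact hc.symm)
    have h2 := hres b (by rw [go b hb.1 hxb.symm, gx, hb.2.2.1]; exact hc.symm)
    have h3 := hb.2.2.2 d hdv (by rw [hfd]; exact hc)
    rw [H.adj_comm d v, H.adj_comm d b] at h3
    apply hone
    rw [H.adj_comm x v, H.adj_comm x b, h1, h2, h3]
  by_cases hav : a = v
  · subst hav; exact (hV d had hgad h).elim
  by_cases hdv : d = v
  · subst hdv
    exact (hV a had.symm hgad.symm (fun z hz => (h z (by rw [hgad]; exact hz)).symm)).elim
  by_cases hax : a = x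
  · subst hax; exact (hX d hdv had hgad h).elim
  by_cases hdx : d = x
  · subst hdx
    exact (hX a hav had.symm hgad.symm (fun z hz => (h z (by rw [hgad]; exact hz)).symm)).elim
  have hfad : f a = f d := by rw [← go a hav hax, ← go d hdv hdx]; exact hgad
  rw [go a hav hax] at h
  obtain ⟨z, hzv, hza, hz⟩ := hf a d hav hdv had hfad
  have hzx : z = x := by
    by_contra hzx
    exact hz (h z (by rw [go z hzv hzx]; exact hza))
  subst hzx
  have hfa : f a = c' := by
    by_contra hfa
    exact hz (h z (by rw [gx]; exact fun h => hfa h.symm))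
  have hfd : f d = c' := by rw [← hfad]; exact hfa
  have hvr : H.Adj v a ↔ H.Adj v d := h v (by rw [gv, hfa]; exact hc.symm)
  have hzr : ∀ y, y ≠ v → y ≠ z → f y ≠ c' → (H.Adj y a ↔ H.Adj y d) := by
    intro y hyv hyz hyc
    exact h y (by rw [go y hyv hyz, hfa]; exact hyc)
  by_cases hza' : H.Adj z a
  · have hzd : ¬ H.Adj z d := fun h' => hz ⟨fun _ => h', fun _ => hza'⟩
    exact ⟨a, d, had, hav, hdv, hax, hdx, hfa, hfd, hza', hzd, hvr, hzr⟩
  · have hzd : H.Adj z d := by
      by_contra h'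
      exact hz ⟨fun h => absurd h hza', fun h => absurd h h'⟩
    exact ⟨d, a, had.symm, hdv, hav, hdx, hax, hfd, hfa, hzd, hza', hvr.symm,
      fun y h1 h2 h3 => (hzr y h1 h2 h3).symm⟩

/-- Step 6: after rotating, the blockers of the other colours are the same. -/
lemma blk_rotate (hk : 2 ≤ k) (hfree : H.CliqueFree (k + 2))
    (hno : ∀ g : V → Fin k, ¬ Good H g) {v : V} {f : V → Fin k}
    (hf : GoodOff H v f) {c c' : Fin k} (hc : c' ≠ c) {w x : V} (hw : Blk H v f c w)
    (hx : Blk H v f c' x) : Blk H w (Function.update f v c) c' x := by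
  have hf' : GoodOff H w (Function.update f v c) := rotate hk hfree hno hf hw
  have hB : ∀ c, ∃ b, Blk H v f c b := exists_blk hno hf
  obtain ⟨b', hb'⟩ := exists_blk hno hf' c'
  by_cases hne : b' = x
  · rw [← hne]; exact hb'
  exfalso
  have hxw : x ≠ w := by
    rintro rfl
    exact hc (hx.2.2.1.symm.trans hw.2.2.1)
  have hwx : H.Adj w x :=
    (hx.2.2.2 w hw.1 (by rw [hw.2.2.1]; exact hc.symm)).1 hw.2.1.symm
  have hf'x : Function.update f v c x = c' := by
    rw [Function.update_of_ne hx.1]; exact hx.2.2.1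
  obtain ⟨p, q, hpq, hpw, hqw, hpx, hqx, hfp, hfq, hxp, hxq, hwr, hr⟩ :=
    critical hk hfree hno hf' hc.symm hb' hxw (fun h => hne h.symm) hf'x (Or.inl hwx)
  have hpv : p ≠ v := by
    rintro rfl
    have hqp : q ≠ p := hpq.ne'
    rw [Function.update_of_ne hqp] at hfq
    have := (hx.2.2.2 q hqp (by rw [hfq]; exact hc.symm)).1 hpq.symm
    exact hxq this.symm
  have hqv : q ≠ v := by
    rintro rfl
    exact hxq hx.2.1.symm
  rw [Function.update_of_ne hpv] at hfp
  rw [Function.update_of_ne hqv] at hfq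
  have hvp : H.Adj v p :=
    ((hx.2.2.2 p hpv (by rw [hfp]; exact hc.symm)).2 hxp.symm).symm
  obtain ⟨p1, q1, hpq1, hpv1, hqv1, hpp1, hqp1, hfp1, hfq1, hpa, hpb, hvr1, hr1⟩ :=
    critical hk hfree hno hf hc hw hpv hpw hfp (Or.inl hvp)
  have hvp1 : ¬ H.Adj v p1 := by
    intro h
    exact no_edge hfree hB h (hvr1.1 h) hpq1 (hfp1.trans hfq1.symm)
  have hvq1 : ¬ H.Adj v q1 := fun h => hvp1 (hvr1.2 h)
  have hwc : ∀ y, f y = c' → y ≠ w := by
    rintro y hy rfl
    exact hc (hy.symm.trans hw.2.2.1)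
  have hxc : ∀ y, ¬ H.Adj v y → y ≠ x := by
    rintro y hy rfl
    exact hy hx.2.1
  have hf1 : Function.update f v c p1 ≠ c := by
    rw [Function.update_of_ne hpv1, hfp1]; exact hc
  have hf2 : Function.update f v c q1 ≠ c := by
    rw [Function.update_of_ne hqv1, hfq1]; exact hc
  have e1 := hr p1 (hwc p1 hfp1) (hxc p1 hvp1) hf1
  have e2 := hr q1 (hwc q1 hfq1) (hxc q1 hvq1) hf2
  have e3 := hr1 q hqv hpq.ne' (by rw [hfq]; exact hc.symm)
  apply hpb
  have : H.Adj q1 q := (e3.1 (e1.1 hpa.symm).symm).symm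
  exact (e2.2 this).symm

/-- Local lemma: the failing structure is a whole component `K_{k+1}`. -/
theorem local_lemma (hk : 2 ≤ k) (hfree : H.CliqueFree (k + 2))
    (hno : ∀ g : V → Fin k, ¬ Good H g) {v : V} {f : V → Fin k}
    (hf : GoodOff H v f) :
    ∃ b : Fin k → V, Function.Injective b ∧ (∀ c, H.Adj v (b c)) ∧
      (∀ c c', c ≠ c' → H.Adj (b c) (b c')) ∧
      (∀ x, H.Adj v x → ∃ c, x = b c) ∧
      (∀ c x, H.Adj (b c) x → x = v ∨ ∃ c', x = b c') := by
  have hB : ∀ c, ∃ b, Blk H v f c b := exists_blk hno hf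
  choose b hb using exists_blk hno hf
  have : Nontrivial (Fin k) := Fin.nontrivial_iff_two_le.2 hk
  have h1 : ∀ x, H.Adj v x → x = b (f x) := by
    intro x hx
    by_contra hne
    obtain ⟨c', hc'⟩ := exists_ne (f x)
    have hxv : x ≠ v := hx.ne'
    have e1 := (hb c').2.2.2 x hxv hc'.symm
    have e2 := (blk_rotate hk hfree hno hf hc' (hb (f x)) (hb c')).2.2.2 x hne
      (by rw [Function.update_of_ne hxv]; exact hc'.symm)
    have h3 : H.Adj x (b (f x)) := e2.2 (e1.1 hx.symm)
    exact no_edge hfree hB hx (hb (f x)).2.1 h3 (hb (f x)).2.2.1.symm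
  refine ⟨b, ?_, fun c => (hb c).2.1, ?_, fun x hx => ⟨f x, h1 x hx⟩, ?_⟩
  · intro c c' h
    rw [← (hb c).2.2.1, ← (hb c').2.2.1, h]
  · intro c c' hne
    exact ((hb c').2.2.2 (b c) (hb c).1 (by rw [(hb c).2.2.1]; exact hne)).1 (hb c).2.1.symm
  · intro c x hx
    by_cases hxv : x = v
    · exact Or.inl hxv
    right
    by_cases hxc : f x = c
    · exfalso
      obtain ⟨c', hc'⟩ := exists_ne c
      have e2 := (blk_rotate hk hfree hno hf hc' (hb c) (hb c')).2.2.2 x hx.ne'
        (by rw [Function.update_of_ne hxv, hxc]; exact hc'.symm)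
      have h3 : H.Adj x (b c') := e2.1 hx.symm
      have h4 : H.Adj x v := ((hb c').2.2.2 x hxv (by rw [hxc]; exact hc'.symm)).2 h3
      have h5 := h1 x h4.symm
      rw [hxc] at h5
      exact hx.ne' h5
    · have h4 : H.Adj x v := ((hb c).2.2.2 x hxv hxc).2 hx.symm
      exact ⟨f x, h1 x h4.symm⟩

end state

/-! ### The induction -/

/-- The graph `G` with all edges meeting the complement of `S` removed. -/
def Gr (G : SimpleGraph V) (S : Finset V) : SimpleGraph V where
  Adj a b := G.Adj a b ∧ a ∈ S ∧ b ∈ S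
  symm := ⟨fun _ _ h => ⟨h.1.symm, h.2.2, h.2.1⟩⟩
  loopless := ⟨fun _ h => h.1.ne rfl⟩

/-- `S` is connected in `G`. -/
def Conn (G : SimpleGraph V) (S : Finset V) : Prop :=
  ∀ K : Finset V, K ⊆ S → K.Nonempty → K ≠ S → ∃ a ∈ K, ∃ b ∈ S, b ∉ K ∧ G.Adj a b

lemma conn_insert {G : SimpleGraph V} {S : Finset V} (hS : Conn G S) {s v : V} (hs : s ∈ S)
    (hsv : G.Adj s v) : Conn G (insert v S) := by
  intro K hK hne hKS
  by_cases h1 : K ∩ S = ∅
  · have hKv : K = {v} := by
      apply Finset.eq_singleton_iff_nonempty_unique_mem.2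
      refine ⟨hne, fun x hx => ?_⟩
      rcases mem_insert.1 (hK hx) with h | h
      · exact h
      · exfalso
        have : x ∈ K ∩ S := mem_inter.2 ⟨hx, h⟩
        rw [h1] at this
        exact notMem_empty _ this
    refine ⟨v, by rw [hKv]; exact mem_singleton_self _, s, mem_insert_of_mem hs, ?_, hsv.symm⟩
    rw [hKv, mem_singleton]
    exact hsv.ne
  · by_cases h2 : K ∩ S = S
    · have hSK : S ⊆ K := inter_eq_right.1 h2
      refine ⟨s, hSK hs, v, mem_insert_self _ _, ?_, hsv⟩
      intro hv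
      exact hKS (Subset.antisymm hK (insert_subset hv hSK))
    · obtain ⟨a, ha, b, hb, hbK, hab⟩ := hS (K ∩ S) inter_subset_right
        (nonempty_iff_ne_empty.2 h1) h2
      exact ⟨a, (mem_inter.1 ha).1, b, mem_insert_of_mem hb,
        fun h => hbK (mem_inter.2 ⟨h, hb⟩), hab⟩

/-- Adding a vertex to a set with a good colouring. -/
lemma step_good {G : SimpleGraph V} {k : ℕ} (hk : 2 ≤ k) (hfree : G.CliqueFree (k + 2))
    {S : Finset V} {v : V} (hv : v ∉ S) (hconn : Conn G (insert v S)) {f : V → Fin k}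
    (hf : Good (Gr G S) f) :
    (∃ f : V → Fin k, Good (Gr G (insert v S)) f) ∨
      (G.IsNClique (k + 1) (insert v S)) := by
  by_cases hno : ∃ f : V → Fin k, Good (Gr G (insert v S)) f
  · exact Or.inl hno
  right
  push Not at hno
  have hfree' : (Gr G (insert v S)).CliqueFree (k + 2) :=
    hfree.anti (fun a b (h : G.Adj a b ∧ _) => h.1)
  have hoff : GoodOff (Gr G (insert v S)) v f := by
    intro a b hav hbv hab hfab
    have ha : a ∈ S := (mem_insert.1 hab.2.1).resolve_left hav
    have hb : b ∈ S := (mem_insert.1 hab.2.2).resolve_left hbv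
    obtain ⟨x, hx, hx'⟩ := hf a b ⟨hab.1, ha, hb⟩ hfab
    have hxS : x ∈ S := by
      by_contra hxS
      exact hx' ⟨fun h => absurd h.2.1 hxS, fun h => absurd h.2.1 hxS⟩
    have hxv : x ≠ v := fun h => hv (h ▸ hxS)
    refine ⟨x, hxv, hx, fun h => hx' ?_⟩
    constructor
    · intro h1
      exact ⟨(h.1 ⟨h1.1, mem_insert_of_mem hxS, mem_insert_of_mem ha⟩).1, hxS, hb⟩
    · intro h1
      exact ⟨(h.2 ⟨h1.1, mem_insert_of_mem hxS, mem_insert_of_mem hb⟩).1, hxS, ha⟩
  obtain ⟨b, hinj, hvb, hbb, h1, h2⟩ := local_lemma hk hfree' hno hoff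
  have hbS : ∀ c, b c ∈ insert v S := fun c => (hvb c).2.2
  have hvn : v ∉ univ.image b := by
    intro h
    obtain ⟨c, _, hc⟩ := mem_image.1 h
    exact (hvb c).1.ne hc.symm
  have hK : insert v (univ.image b) = insert v S := by
    by_contra hne
    obtain ⟨a, ha, d, hd, hdK, had⟩ := hconn (insert v (univ.image b))
      (insert_subset (mem_insert_self _ _) (by
        intro x hx
        obtain ⟨c, _, rfl⟩ := mem_image.1 hx
        exact hbS c)) ⟨v, mem_insert_self _ _⟩ hne
    apply hdK
    rcases mem_insert.1 ha with rfl | ha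
    · obtain ⟨c, hc⟩ := h1 d ⟨had, mem_insert_self _ _, hd⟩
      exact mem_insert_of_mem (mem_image.2 ⟨c, mem_univ _, hc.symm⟩)
    · obtain ⟨c, _, rfl⟩ := mem_image.1 ha
      rcases h2 c d ⟨had, hbS c, hd⟩ with h | ⟨c', hc'⟩
      · rw [h]; exact mem_insert_self _ _
      · exact mem_insert_of_mem (mem_image.2 ⟨c', mem_univ _, hc'.symm⟩)
  rw [← hK]
  refine ⟨?_, ?_⟩
  · intro x hx y hy hxy
    simp only [coe_insert, coe_image, coe_univ, Set.image_univ, Set.mem_insert_iff,
      Set.mem_range] at hx hy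
    rcases hx with rfl | ⟨c, rfl⟩
    · rcases hy with rfl | ⟨c', rfl⟩
      · exact absurd rfl hxy
      · exact (hvb c').1
    · rcases hy with rfl | ⟨c', rfl⟩
      · exact (hvb c).1.symm
      · exact (hbb c c' (fun h => hxy (by rw [h]))).1
  · rw [card_insert_of_notMem hvn, card_image_of_injective _ hinj, card_univ, Fintype.card_fin]

/-- Adding a vertex to a clique of size `k + 1`. -/
lemma step_clique {G : SimpleGraph V} {k : ℕ} (hk : 2 ≤ k) (hfree : G.CliqueFree (k + 2))
    {S : Finset V} {s v : V} (hv : v ∉ S) (hs : s ∈ S) (hsv : G.Adj s v)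
    (hS : G.IsNClique (k + 1) S) : ∃ f : V → Fin k, Good (Gr G (insert v S)) f := by
  obtain ⟨t, htS, htv⟩ : ∃ t ∈ S, ¬ G.Adj t v := by
    by_contra hcon
    push Not at hcon
    exact hfree (insert v S) (hS.insert (fun b hb => (hcon b hb).symm))
  have hts : t ≠ s := by
    rintro rfl
    exact htv hsv
  have hcard : (S.erase s).card = k := by
    rw [card_erase_of_mem hs, hS.card_eq]; rfl
  have : Nontrivial (Fin k) := Fin.nontrivial_iff_two_le.2 hk
  let e : (S.erase s : Finset V) ≃ Fin k := (S.erase s).equivFinOfCardEq hcard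
  have htE : t ∈ S.erase s := mem_erase.2 ⟨hts, htS⟩
  obtain ⟨c0, hc0⟩ := exists_ne (e ⟨t, htE⟩)
  let f : V → Fin k := fun x => if h : x ∈ S.erase s then e ⟨x, h⟩
    else if x = s then e ⟨t, htE⟩ else c0
  have fE : ∀ x (h : x ∈ S.erase s), f x = e ⟨x, h⟩ := fun x h => by simp only [f, dif_pos h]
  have fs : f s = e ⟨t, htE⟩ := by simp [f]
  have ft : f t = e ⟨t, htE⟩ := fE t htE
  have hvE : v ∉ S.erase s := fun h => hv (mem_erase.1 h).2
  have fv : f v = c0 := by
    have hne : v ≠ s := fun h => hv (h ▸ hs)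
    simp only [f, dif_neg hvE, if_neg hne]
  have hinj : ∀ x y, x ∈ S.erase s → y ∈ S.erase s → f x = f y → x = y := by
    intro x y hx hy h
    rw [fE x hx, fE y hy] at h
    exact congrArg Subtype.val (e.injective h)
  -- edges in `S`
  have hSS : ∀ a d, a ∈ S → d ∈ S → a ≠ d → f a = f d → (a = s ∧ d = t) ∨ (a = t ∧ d = s) := by
    intro a d ha hd hne hfad
    by_cases has : a = s
    · left
      refine ⟨has, ?_⟩
      have hd' : d ∈ S.erase s := mem_erase.2 ⟨fun h => hne (has.trans h.symm), hd⟩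
      exact hinj d t hd' htE (by rw [ft, ← hfad, has, fs])
    · by_cases hds : d = s
      · right
        exact ⟨hinj a t (mem_erase.2 ⟨has, ha⟩) htE (by rw [ft, hfad, hds, fs]), hds⟩
      · exact absurd (hinj a d (mem_erase.2 ⟨has, ha⟩) (mem_erase.2 ⟨hds, hd⟩) hfad) hne
  have hvres : ¬ ((Gr G (insert v S)).Adj v s ↔ (Gr G (insert v S)).Adj v t) := by
    intro h
    exact htv (h.1 ⟨hsv.symm, mem_insert_self _ _, mem_insert_of_mem hs⟩).1.symm
  have hV : ∀ d, (Gr G (insert v S)).Adj v d → f v = f d →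
      ∃ x, f x ≠ f v ∧ ¬ ((Gr G (insert v S)).Adj x v ↔ (Gr G (insert v S)).Adj x d) := by
    intro d hd hfd
    have hdS : d ∈ S := (mem_insert.1 hd.2.2).resolve_left hd.1.ne'
    refine ⟨t, by rw [ft, fv]; exact hc0.symm, fun h => ?_⟩
    have hdt : t ≠ d := by
      rintro rfl
      exact htv hd.1.symm
    exact htv (h.2 ⟨hS.isClique htS hdS hdt, mem_insert_of_mem htS, mem_insert_of_mem hdS⟩).1
  refine ⟨f, fun a d had hfad => ?_⟩
  by_cases hav : a = v
  · subst hav; exact hV d had hfad
  by_cases hdv : d = v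
  · subst hdv
    obtain ⟨x, hx, hx'⟩ := hV a had.symm hfad.symm
    exact ⟨x, by rw [hfad]; exact hx, fun h => hx' h.symm⟩
  have ha : a ∈ S := (mem_insert.1 had.2.1).resolve_left hav
  have hd : d ∈ S := (mem_insert.1 had.2.2).resolve_left hdv
  rcases hSS a d ha hd had.1.ne hfad with ⟨rfl, rfl⟩ | ⟨rfl, rfl⟩
  · exact ⟨v, by rw [fv, fs]; exact hc0, hvres⟩
  · exact ⟨v, by rw [fv, ft]; exact hc0, fun h => hvres h.symm⟩

/-- **Main theorem**: a Brooks type theorem for locally resolved colourings. -/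
theorem exists_good [Fintype V] (G : SimpleGraph V) (hG : G.Connected) {k : ℕ} (hk : 2 ≤ k)
    (hfree : G.CliqueFree (k + 2)) (hcard : Fintype.card V ≠ k + 1) :
    ∃ f : V → Fin k, Good G f := by
  have main : ∀ m, 1 ≤ m → m ≤ Fintype.card V → ∃ S : Finset V, S.card = m ∧ Conn G S ∧
      ((∃ f : V → Fin k, Good (Gr G S) f) ∨ G.IsNClique (k + 1) S) := by
    intro m hm
    induction m, hm using Nat.le_induction with
    | base =>
      intro _
      obtain ⟨v⟩ := hG.nonempty
      refine ⟨{v}, card_singleton v, ?_, Or.inl ⟨fun _ => ⟨0, by omega⟩, ?_⟩⟩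
      · intro K hK hne hne'
        exact absurd ((subset_singleton_iff.1 hK).resolve_left hne.ne_empty) hne'
      · intro a b hab
        exfalso
        have ha := mem_singleton.1 hab.2.1
        have hb := mem_singleton.1 hab.2.2
        exact hab.1.ne (ha.trans hb.symm)
    | succ m hm ih =>
      intro hm'
      obtain ⟨S, hSm, hconn, hS⟩ := ih (by omega)
      obtain ⟨s, hs, v, hv, hsv⟩ : ∃ s ∈ S, ∃ v, v ∉ S ∧ G.Adj s v := by
        by_contra hcon
        push Not at hcon
        have hne : S.Nonempty := by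
          rw [← card_pos]; omega
        obtain ⟨s, hs⟩ := hne
        have hall : ∀ x, x ∈ S := by
          intro x
          obtain ⟨p⟩ := hG.preconnected s x
          clear hSm hconn hS
          induction p with
          | nil => exact hs
          | cons h p ih =>
            apply ih
            by_contra hx
            exact hcon _ hs _ hx h
        have : S = univ := eq_univ_iff_forall.2 hall
        rw [this, card_univ] at hSm
        omega
      have hconn' := conn_insert hconn hs hsv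
      refine ⟨insert v S, by rw [card_insert_of_notMem hv, hSm], hconn', ?_⟩
      rcases hS with ⟨f, hf⟩ | hS
      · exact step_good hk hfree hv hconn' hf
      · exact Or.inl (step_clique hk hfree hv hs hsv hS)
  obtain ⟨v⟩ := hG.nonempty
  have hpos : 1 ≤ Fintype.card V := Fintype.card_pos_iff.2 ⟨v⟩
  obtain ⟨S, hSm, -, hS⟩ := main _ hpos le_rfl
  have hSu : S = univ := (card_eq_iff_eq_univ S).1 hSm
  rcases hS with ⟨f, hf⟩ | hS
  · refine ⟨f, fun a b hab hfab => ?_⟩
    have hm : ∀ x, x ∈ S := fun x => by rw [hSu]; exact mem_univ x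
    obtain ⟨x, hx, hx'⟩ := hf a b ⟨hab, hm a, hm b⟩ hfab
    refine ⟨x, hx, fun h => hx' ?_⟩
    constructor
    · intro h1; exact ⟨h.1 h1.1, hm _, hm _⟩
    · intro h1; exact ⟨h.2 h1.1, hm _, hm _⟩
  · exact absurd (hSm.symm.trans hS.card_eq) hcard

/-- The local metric dimension bound. -/
theorem ldim_bound [Fintype V] (G : SimpleGraph V) (hG : G.Connected) {k : ℕ} (hk : 2 ≤ k)
    (hfree : G.CliqueFree (k + 2)) (hcard : Fintype.card V ≠ k + 1) :
    ∃ W : Finset V, (∀ u v : V, G.Adj u v → ∃ w ∈ W, G.dist u w ≠ G.dist v w) ∧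
      k * W.card ≤ (k - 1) * Fintype.card V := by
  obtain ⟨f, hf⟩ := exists_good G hG hk hfree hcard
  -- a colour class of size at least `n / k`
  obtain ⟨c, hc⟩ : ∃ c : Fin k, Fintype.card V ≤ k * (univ.filter (fun x => f x = c)).card := by
    by_contra hcon
    push Not at hcon
    have h1 : ∑ c : Fin k, (univ.filter (fun x => f x = c)).card = Fintype.card V := by
      rw [← card_univ, card_eq_sum_card_fiberwise (f := f) (t := univ) (fun _ _ => mem_univ _)]
    have h2 : ∑ c : Fin k, k * (univ.filter (fun x => f x = c)).card <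
        ∑ _c : Fin k, Fintype.card V := by
      apply sum_lt_sum_of_nonempty
      · exact ⟨⟨0, by omega⟩, mem_univ _⟩
      · intro c _
        exact hcon c
    rw [← mul_sum, h1, sum_const, card_univ, Fintype.card_fin, smul_eq_mul] at h2
    exact lt_irrefl _ h2
  refine ⟨univ.filter (fun x => f x ≠ c), ?_, ?_⟩
  · intro u v huv
    by_cases hu : f u = c
    · by_cases hv : f v = c
      · obtain ⟨x, hx, hx'⟩ := hf u v huv (hu.trans hv.symm)
        refine ⟨x, mem_filter.2 ⟨mem_univ _, by rw [← hu]; exact hx⟩, fun h => hx' ?_⟩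
        rw [G.adj_comm x u, G.adj_comm x v, ← SimpleGraph.dist_eq_one_iff_adj,
          ← SimpleGraph.dist_eq_one_iff_adj, h]
      · refine ⟨v, mem_filter.2 ⟨mem_univ _, hv⟩, ?_⟩
        rw [SimpleGraph.dist_self, SimpleGraph.dist_eq_one_iff_adj.2 huv]
        exact one_ne_zero
    · refine ⟨u, mem_filter.2 ⟨mem_univ _, hu⟩, ?_⟩
      rw [SimpleGraph.dist_self, SimpleGraph.dist_eq_one_iff_adj.2 huv.symm]
      exact zero_ne_one
  · have h3 : (univ.filter (fun x => f x = c)).card + (univ.filter (fun x => f x ≠ c)).card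
        = Fintype.card V := by
      rw [← card_univ]
      exact card_filter_add_card_filter_not _
    obtain ⟨j, rfl⟩ : ∃ j, k = j + 1 := ⟨k - 1, by omega⟩
    simp only [Nat.add_sub_cancel]
    nlinarith [h3, hc]

end Pool.Agent.W111.LDim
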