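import Pool.Agent.W217.BE.Stm2

/-!
# A prime containing the contraction ideal has large height
-/

set_option autoImplicit false

namespace Pool.Agent.W111.BEHT2

open Pool.Agent.W217.BE

open MvPolynomial in
/-- setting the variables of `J` to zero -/
noncomputable def hh {A : Type} [CommRing A] {k : ℕ} (J : Fin k → Bool) :
    MvPolynomial (Fin k) A →ₐ[A] MvPolynomial (Fin k) A :=
  aeval fun j => if J j = true then 0 else X j

theorem hh_monomial {A : Type} [CommRing A] {k : ℕ} (J : Fin k → Bool) (β : Fin k →₀ ℕ) (a : A) :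
    hh J (MvPolynomial.monomial β a) =
      if ∀ j, J j = true → β j = 0 then MvPolynomial.monomial β a else 0 := by
  unfold hh
  rw [MvPolynomial.aeval_monomial]
  split_ifs with h
  · rw [MvPolynomial.monomial_eq, MvPolynomial.algebraMap_eq]
    congr 1
    refine Finset.prod_congr rfl fun j hj => ?_
    have h1 : ¬ J j = true := fun h2 => (Finsupp.mem_support_iff.1 hj) (h j h2)
    simp only [if_neg h1]
  · push Not at h
    obtain ⟨j, h1, h2⟩ := h
    have h3 : (β.prod fun j n => (if J j = true then (0 : MvPolynomial (Fin k) A) else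
        MvPolynomial.X j) ^ n) = 0 := by
      refine Finset.prod_eq_zero (Finsupp.mem_support_iff.2 h2) ?_
      simp only [if_pos h1]
      exact zero_pow h2
    rw [h3, mul_zero]

theorem coeff_hh {A : Type} [CommRing A] {k : ℕ} (J : Fin k → Bool) (α : Fin k →₀ ℕ)
    (f : MvPolynomial (Fin k) A) : MvPolynomial.coeff α (hh J f) =
      if ∀ j, J j = true → α j = 0 then MvPolynomial.coeff α f else 0 := by
  classical
  induction f using MvPolynomial.induction_on' with
  | monomial β a =>
    rw [hh_monomial, MvPolynomial.coeff_monomial]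
    by_cases hb : ∀ j, J j = true → β j = 0
    · rw [if_pos hb, MvPolynomial.coeff_monomial]
      by_cases h : β = α
      · subst h
        rw [if_pos rfl, if_pos hb]
      · rw [if_neg h]
        simp
    · rw [if_neg hb, MvPolynomial.coeff_zero]
      by_cases h : β = α
      · subst h
        rw [if_neg hb]
      · rw [if_neg h]
        simp
  | add p q hp hq =>
    rw [map_add, MvPolynomial.coeff_add, hp, hq, MvPolynomial.coeff_add]
    split_ifs <;> simp

/-- The prime ideal. -/
noncomputable def QQ {A : Type} [CommRing A] {k : ℕ} (J : Fin k → Bool) (q : Ideal A) :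
    Ideal (MvPolynomial (Fin k) A) :=
  RingHom.ker ((MvPolynomial.map (Ideal.Quotient.mk q)).comp
    (hh (A := A) J : MvPolynomial (Fin k) A →+* MvPolynomial (Fin k) A))

theorem mem_QQ {A : Type} [CommRing A] {k : ℕ} (J : Fin k → Bool) (q : Ideal A)
    (f : MvPolynomial (Fin k) A) : f ∈ QQ J q ↔
      ∀ α : Fin k →₀ ℕ, (∀ j, J j = true → α j = 0) → MvPolynomial.coeff α f ∈ q := by
  unfold QQ
  rw [RingHom.mem_ker, RingHom.comp_apply, MvPolynomial.ext_iff]
  refine forall_congr' fun α => ?_
  rw [MvPolynomial.coeff_map, MvPolynomial.coeff_zero, Ideal.Quotient.eq_zero_iff_mem]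
  change MvPolynomial.coeff α (hh J f) ∈ q ↔ _
  rw [coeff_hh]
  split_ifs with h
  · exact ⟨fun h1 _ => h1, fun h1 => h1 h⟩
  · exact ⟨fun _ h1 => (h h1).elim, fun _ => q.zero_mem⟩

theorem isPrime_QQ {A : Type} [CommRing A] {k : ℕ} (J : Fin k → Bool) (q : Ideal A)
    [q.IsPrime] : (QQ J q).IsPrime := by
  unfold QQ
  exact RingHom.ker_isPrime _

theorem main : HOMANN → HT2 := by
  intro hom A _ _ k J M _ _ _ _ ℳ hint hgr q hq hkil
  have := hq
  have := isPrime_QQ J q
  classical
  have h1 : Module.annihilator (MvPolynomial (Fin k) A) M ≤ QQ J q := by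
    intro f hf
    rw [mem_QQ]
    intro α hα
    refine hkil _ ⟨α, hα, fun x => ?_⟩
    have h2 := hom A k M ℳ hint hgr f hf α
    exact Module.mem_annihilator.1 h2 x
  refine (Ideal.height_mono h1).trans ?_
  have hlo : (QQ J q).LiesOver q := by
    refine ⟨?_⟩
    ext a
    rw [Ideal.under_def, Ideal.mem_comap, mem_QQ, MvPolynomial.algebraMap_eq]
    constructor
    · intro ha α _
      rw [MvPolynomial.coeff_C]
      split_ifs
      · exact ha
      · exact q.zero_mem
    · intro h
      have h2 := h 0 (fun _ _ => rfl)
      rwa [MvPolynomial.coeff_C, if_pos rfl] at h2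
  refine (Ideal.height_le_height_add_of_liesOver q (QQ J q)).trans ?_
  gcongr
  set I0 : Ideal (MvPolynomial (Fin k) A) :=
    q.map (algebraMap A (MvPolynomial (Fin k) A)) with hI0
  have hI0Q : I0 ≤ QQ J q := by
    rw [hI0, Ideal.map_le_iff_le_comap]
    intro a ha
    have h2 : q = (QQ J q).comap (algebraMap A (MvPolynomial (Fin k) A)) := hlo.over
    rw [h2] at ha
    exact ha
  set S : Finset (MvPolynomial (Fin k) A ⧸ I0) :=
    ((Finset.univ : Finset (Fin k)).filter (fun j => J j = true)).image
      (fun j => Ideal.Quotient.mk I0 (MvPolynomial.X j)) with hS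
  have hspan : (QQ J q).map (Ideal.Quotient.mk I0) = Ideal.span (S : Set _) := by
    apply le_antisymm
    · rw [Ideal.map_le_iff_le_comap]
      intro f hf
      rw [Ideal.mem_comap, f.as_sum, map_sum]
      refine Ideal.sum_mem _ fun α _ => ?_
      by_cases hα : ∀ j, J j = true → α j = 0
      · have h2 := (mem_QQ J q f).1 hf α hα
        have h3 : Ideal.Quotient.mk I0 (MvPolynomial.monomial α (MvPolynomial.coeff α f)) = 0 := by
          rw [Ideal.Quotient.eq_zero_iff_mem]
          have h4 : MvPolynomial.monomial α (MvPolynomial.coeff α f) =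
              MvPolynomial.C (MvPolynomial.coeff α f) * MvPolynomial.monomial α 1 := by
            rw [MvPolynomial.C_mul_monomial, mul_one]
          rw [h4]
          exact Ideal.mul_mem_right _ _ (Ideal.mem_map_of_mem _ h2)
        rw [h3]
        exact Ideal.zero_mem _
      · push Not at hα
        obtain ⟨j, hj, hαj⟩ := hα
        have h4 : MvPolynomial.monomial α (MvPolynomial.coeff α f) =
            MvPolynomial.X j * MvPolynomial.monomial (α - Finsupp.single j 1)
              (MvPolynomial.coeff α f) := by
          have h7 : α = Finsupp.single j 1 + (α - Finsupp.single j 1) := by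
            ext i
            rw [Finsupp.add_apply, Finsupp.tsub_apply]
            by_cases hij : i = j
            · subst hij
              rw [Finsupp.single_eq_same]
              omega
            · rw [Finsupp.single_eq_of_ne hij]
              simp
          rw [MvPolynomial.X, MvPolynomial.monomial_mul, one_mul, ← h7]
        rw [h4, map_mul]
        refine Ideal.mul_mem_right _ _ (Ideal.subset_span ?_)
        rw [hS, Finset.coe_image]
        exact ⟨j, by simp [hj], rfl⟩
    · rw [Ideal.span_le]
      intro y hy
      rw [hS, Finset.coe_image] at hy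
      obtain ⟨j, hj, rfl⟩ := hy
      have hj' : J j = true := by simpa using hj
      refine Ideal.mem_map_of_mem _ ((mem_QQ J q _).2 fun α hα => ?_)
      rw [MvPolynomial.coeff_X]
      split_ifs with h
      · exfalso
        have h2 := hα j hj'
        rw [← h] at h2
        simp at h2
      · exact q.zero_mem
  have hne : (QQ J q).map (Ideal.Quotient.mk I0) ≠ ⊤ := by
    intro htop
    have h2 : (1 : MvPolynomial (Fin k) A ⧸ I0) ∈ (QQ J q).map (Ideal.Quotient.mk I0) := by
      rw [htop]
      trivial
    rw [Ideal.mem_map_iff_of_surjective _ Ideal.Quotient.mk_surjective] at h2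
    obtain ⟨x, hx, hx1⟩ := h2
    have h3 : x - 1 ∈ I0 := by
      rw [← Ideal.Quotient.eq_zero_iff_mem, map_sub, hx1, map_one, sub_self]
    have h4 : (1 : MvPolynomial (Fin k) A) ∈ QQ J q := by
      have h5 := (QQ J q).sub_mem hx (hI0Q h3)
      simpa using h5
    exact (isPrime_QQ J q).ne_top ((Ideal.eq_top_iff_one _).2 h4)
  refine (Ideal.height_le_spanRank_toENat _ hne).trans ?_
  rw [hspan]
  have h5 : Cardinal.toENat (Submodule.spanRank
      (Ideal.span (S : Set (MvPolynomial (Fin k) A ⧸ I0)))) ≤ (S.card : ℕ∞) := by
    simpa using Submodule.spanRank_span_le_card (S : Set (MvPolynomial (Fin k) A ⧸ I0))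
  refine h5.trans ?_
  have h6 : S.card ≤ ∑ j, (if J j = true then 1 else 0 : ℕ) := by
    rw [← Finset.card_filter]
    exact Finset.card_image_le
  exact_mod_cast h6

end Pool.Agent.W111.BEHT2
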