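import Mathlib

set_option autoImplicit false

namespace Pool.Agent.W111.Bridged

open SimpleGraph

variable {V : Type*} {G : SimpleGraph V}

/-- every cycle of length at least four has a shortcut -/
def Br (G : SimpleGraph V) : Prop :=
  ∀ (u : V) (c : G.Walk u u), c.IsCycle → 4 ≤ c.length →
        ∃ i j : ℕ, i ≤ j ∧ j < c.length ∧
          G.dist (c.getVert i) (c.getVert j) < min (j - i) (c.length - (j - i))

lemma walkOf (n : ℕ) : ∀ (f : ℕ → V), (∀ i < n, G.Adj (f i) (f (i + 1))) →
    ∃ p : G.Walk (f 0) (f n), p.length = n ∧ ∀ i ≤ n, p.getVert i = f i := by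
  induction n with
  | zero =>
    intro f _
    refine ⟨Walk.nil, rfl, ?_⟩
    intro i hi
    obtain rfl : i = 0 := by omega
    simp
  | succ n ih =>
    intro f h
    obtain ⟨q, hq, hq2⟩ := ih (fun i => f (i + 1)) (fun i hi => h (i + 1) (by omega))
    refine ⟨Walk.cons (h 0 (by omega)) q, by simp [hq], ?_⟩
    intro i hi
    rcases i with _ | i
    · simp
    · simpa using hq2 i (by omega)

lemma dist_chain {n : ℕ} {f : ℕ → V} (h : ∀ i < n, G.Adj (f i) (f (i + 1))) {i j : ℕ}
    (hij : i ≤ j) (hj : j ≤ n) : G.dist (f i) (f j) ≤ j - i := by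
  obtain ⟨p, hp, -⟩ := walkOf (G := G) (j - i) (fun k => f (i + k)) (fun k hk => by
    have := h (i + k) (by omega)
    simpa [add_assoc] using this)
  have h1 := dist_le p
  rw [hp] at h1
  simpa [Nat.add_sub_cancel' hij] using h1

lemma reach_chain {n : ℕ} {f : ℕ → V} (h : ∀ i < n, G.Adj (f i) (f (i + 1))) {i j : ℕ}
    (hij : i ≤ j) (hj : j ≤ n) : G.Reachable (f i) (f j) := by
  obtain ⟨p, hp, -⟩ := walkOf (G := G) (j - i) (fun k => f (i + k)) (fun k hk => by
    have := h (i + k) (by omega)
    simpa [add_assoc] using this)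
  have := p.reachable
  simpa [Nat.add_sub_cancel' hij] using this

/-- function form of the shortcut property -/
lemma br_fun (hG : Br G) {N : ℕ} (hN : 4 ≤ N) (f : ℕ → V)
    (hadj : ∀ i < N, G.Adj (f i) (f (i + 1))) (hcl : f N = f 0)
    (hinj : ∀ i j, i < j → j < N → f i ≠ f j) :
    ∃ i j, i < j ∧ j < N ∧ G.dist (f i) (f j) < min (j - i) (N - (j - i)) := by
  obtain ⟨p, hp, hpv⟩ := walkOf N f hadj
  have hinj' : ∀ i j, i < N → j < N → f i = f j → i = j := by
    intro i j hi hj hij
    rcases lt_trichotomy i j with h | h | h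
    · exact absurd hij (hinj i j h hj)
    · exact h
    · exact absurd hij.symm (hinj j i h hi)
  set c : G.Walk (f 0) (f 0) := p.copy rfl hcl with hc
  have hlen : c.length = N := by simp [hc, hp]
  have hget : ∀ i ≤ N, c.getVert i = f i := by
    intro i hi
    simp [hc, hpv i hi]
  have hcyc : c.IsCycle := by
    rw [Walk.isCycle_iff_isPath_tail_and_le_length]
    refine ⟨?_, by omega⟩
    rw [← Walk.IsPath.getVert_injOn_iff]
    have hnn : ¬ c.Nil := by
      intro h
      have := Walk.nil_iff_length_eq.mp h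
      omega
    have htl : c.tail.length = N - 1 := by
      have := Walk.length_tail_add_one hnn
      omega
    intro i hi j hj hij
    simp only [Set.mem_setOf_eq] at hi hj
    rw [htl] at hi hj
    rw [Walk.getVert_tail, Walk.getVert_tail, hget _ (by omega), hget _ (by omega)] at hij
    rcases Nat.lt_or_ge (i + 1) N with h1 | h1 <;> rcases Nat.lt_or_ge (j + 1) N with h2 | h2
    · have := hinj' _ _ h1 h2 hij
      omega
    · have h3 : j + 1 = N := by omega
      rw [h3, hcl] at hij
      have := hinj' _ _ h1 (by omega) hij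
      omega
    · have h3 : i + 1 = N := by omega
      rw [h3, hcl] at hij
      have := hinj' _ _ (by omega) h2 hij
      omega
    · omega
  obtain ⟨i, j, hij, hj, hd⟩ := hG _ c hcyc (by omega)
  rw [hlen] at hj hd
  rw [hget i (by omega), hget j (by omega)] at hd
  have hlt : i < j := by
    rcases Nat.lt_or_ge i j with h | h
    · exact h
    · obtain rfl : i = j := by omega
      simp at hd
  exact ⟨i, j, hlt, hj, hd⟩

/-- distance facts -/
lemma adj_dist {a b : V} (h : G.Adj a b) (y : V) : G.dist a y ≤ G.dist b y + 1 := by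
  have h1 : G.dist a b = 1 := dist_eq_one_iff_adj.mpr h
  have := h.reachable.dist_triangle_left y
  omega

lemma adj_dist' {a b : V} (h : G.Adj a b) (y : V) : G.dist y a ≤ G.dist y b + 1 := by
  rw [G.dist_comm (u := y) (v := a), G.dist_comm (u := y) (v := b)]
  exact adj_dist h y

lemma closer {x y : V} {k : ℕ} (h : G.dist x y = k + 1) : ∃ a, G.Adj x a ∧ G.dist a y = k := by
  obtain ⟨p, hp⟩ := exists_walk_of_dist_ne_zero (G := G) (u := x) (v := y) (by omega)
  cases p with
  | nil => simp at h
  | @cons _ a _ hxa q =>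
    refine ⟨a, hxa, ?_⟩
    have h1 := dist_le q
    have h2 := adj_dist hxa y
    simp only [Walk.length_cons] at hp
    omega

lemma reach_of_dist {x y : V} {k : ℕ} (h : G.dist x y = k) (hk : 1 ≤ k) : G.Reachable x y :=
  Reachable.of_dist_ne_zero (by omega)

lemma eq_of_dist_zero {x y : V} (hr : G.Reachable x y) (h : G.dist x y = 0) : x = y :=
  (hr.dist_eq_zero_iff).1 h

/-- geodesic as a function -/
lemma geo {y a : V} {m : ℕ} (hr : G.Reachable y a) (h : G.dist y a = m) :
    ∃ g : ℕ → V, g 0 = y ∧ g m = a ∧ (∀ i < m, G.Adj (g i) (g (i + 1))) ∧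
      (∀ i j, i ≤ j → j ≤ m → G.dist (g i) (g j) = j - i) := by
  obtain ⟨p, hp⟩ := hr.exists_walk_length_eq_dist
  have hadj : ∀ i < m, G.Adj (p.getVert i) (p.getVert (i + 1)) := fun i hi =>
    p.adj_getVert_succ (by omega)
  have h0 : p.getVert 0 = y := p.getVert_zero
  have hm : p.getVert m = a := by
    have := p.getVert_length
    rwa [hp, h] at this
  refine ⟨p.getVert, h0, hm, hadj, ?_⟩
  intro i j hij hj
  have h1 := dist_chain hadj hij hj
  have h2 := dist_chain hadj (Nat.zero_le i) (by omega : i ≤ m)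
  have h3 := dist_chain hadj hj le_rfl
  have h4 := (reach_chain hadj (Nat.zero_le i) (by omega : i ≤ m)).dist_triangle_left (p.getVert m)
  have h5 := (reach_chain hadj hij hj).dist_triangle_left (p.getVert m)
  rw [h0] at h2 h4
  rw [hm] at h3 h4 h5
  omega

/-- no induced four-cycle -/
def NoC4 (G : SimpleGraph V) : Prop := ∀ a b c d : V, G.Adj a b → G.Adj b c → G.Adj c d →
  G.Adj d a → a ≠ c → b ≠ d → ¬ G.Adj a c → G.Adj b d

def NoC5 (G : SimpleGraph V) : Prop := ∀ a b c d e : V, G.Adj a b → G.Adj b c → G.Adj c d →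
  G.Adj d e → G.Adj e a → ¬ G.Adj a c → ¬ G.Adj a d → ¬ G.Adj b d → ¬ G.Adj b e →
  ¬ G.Adj c e → a ≠ c → a ≠ d → b ≠ d → b ≠ e → c ≠ e → False

lemma dist_pos_of {a b : V} (hr : G.Reachable a b) (hne : a ≠ b) : 1 ≤ G.dist a b :=
  hr.pos_dist_of_ne hne

lemma dist_two_of {a b : V} (hr : G.Reachable a b) (hne : a ≠ b) (h : ¬ G.Adj a b) :
    2 ≤ G.dist a b :=
  hr.one_lt_dist_of_ne_of_not_adj hne h

lemma br_noC4 (hG : Br G) : NoC4 G := by
  intro a b c d hab hbc hcd hda hac hbd hnac
  by_contra hnbd
  let f : ℕ → V := fun i => if i % 4 = 0 then a else if i % 4 = 1 then b else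
    if i % 4 = 2 then c else d
  have f0 : f 0 = a := rfl
  have f1 : f 1 = b := rfl
  have f2 : f 2 = c := rfl
  have f3 : f 3 = d := rfl
  have f4 : f 4 = a := rfl
  have hrac : G.Reachable a c := hab.reachable.trans hbc.reachable
  have hrbd : G.Reachable b d := hbc.reachable.trans hcd.reachable
  obtain ⟨i, j, hij, hj, hd⟩ := br_fun hG (N := 4) le_rfl f
    (by intro i hi; interval_cases i <;> simp [f, hab, hbc, hcd, hda]) (by simp [f])
    (by
      intro i j hij hj
      interval_cases j <;> interval_cases i <;>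
        simp [f, hab.ne, hbc.ne, hcd.ne, hda.ne.symm, hac, hbd])
  have := dist_two_of hrac hac hnac
  have := dist_two_of hrbd hbd hnbd
  have h1 := dist_pos_of hab.reachable hab.ne
  have h2 := dist_pos_of hbc.reachable hbc.ne
  have h3 := dist_pos_of hcd.reachable hcd.ne
  have h4 := dist_pos_of hda.symm.reachable hda.symm.ne
  interval_cases j <;> interval_cases i <;> simp only [f0, f1, f2, f3] at hd <;> omega

lemma br_noC5 (hG : Br G) : NoC5 G := by
  intro a b c d e hab hbc hcd hde hea hac had hbd hbe hce nac nad nbd nbe nce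
  let f : ℕ → V := fun i => if i % 5 = 0 then a else if i % 5 = 1 then b else
    if i % 5 = 2 then c else if i % 5 = 3 then d else e
  have f0 : f 0 = a := rfl
  have f1 : f 1 = b := rfl
  have f2 : f 2 = c := rfl
  have f3 : f 3 = d := rfl
  have f4 : f 4 = e := rfl
  have f5 : f 5 = a := rfl
  have rb : G.Reachable a b := hab.reachable
  have rc : G.Reachable a c := rb.trans hbc.reachable
  have rd : G.Reachable a d := rc.trans hcd.reachable
  have re : G.Reachable a e := rd.trans hde.reachable
  obtain ⟨i, j, hij, hj, hd⟩ := br_fun hG (N := 5) (by norm_num) f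
    (by intro i hi; interval_cases i <;> simp [f, hab, hbc, hcd, hde, hea]) (by simp [f])
    (by
      intro i j hij hj
      interval_cases j <;> interval_cases i <;>
        simp [f, hab.ne, hbc.ne, hcd.ne, hde.ne, hea.ne.symm, nac, nad, nbd, nbe, nce])
  have e1 := dist_two_of rc nac hac
  have e2 := dist_two_of rd nad had
  have e3 := dist_two_of (rb.symm.trans rd) nbd hbd
  have e4 := dist_two_of (rb.symm.trans re) nbe hbe
  have e5 := dist_two_of (rc.symm.trans re) nce hce
  have h1 := dist_pos_of hab.reachable hab.ne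
  have h2 := dist_pos_of hbc.reachable hbc.ne
  have h3 := dist_pos_of hcd.reachable hcd.ne
  have h4 := dist_pos_of hde.reachable hde.ne
  have h5 := dist_pos_of hea.symm.reachable hea.symm.ne
  interval_cases j <;> interval_cases i <;> simp only [f0, f1, f2, f3, f4] at hd <;> omega

end Pool.Agent.W111.Bridged
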