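import Pool.Agent.W111.BrTC

set_option autoImplicit false

namespace Pool.Agent.W111.Bridged

open SimpleGraph

variable {V : Type*} {G H H' : SimpleGraph V}

lemma adj_of_dist_one {a b : V} (h : G.dist a b = 1) : G.Adj a b := dist_eq_one_iff_adj.1 h

lemma dist_adj {a b : V} (h : G.Adj a b) : G.dist a b = 1 := dist_eq_one_iff_adj.2 h

/-- the key step: an isometric cycle through the dominated vertex `v` -/
lemma ext_key (hH' : Br H') (h5 : NoC5 H) {v u : V}
    (hdist : ∀ x y, x ≠ v → y ≠ v → H'.dist x y = H.dist x y) (hle : H' ≤ H)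
    (hv : ∀ x, ¬ H'.Adj v x) (huv : H.Adj v u)
    (hback : ∀ x y, x ≠ v → y ≠ v → H.Adj x y → H'.Adj x y)
    {N : ℕ} (hN : 6 ≤ N) (f : ℕ → V)
    (iso : ∀ i j, i ≤ j → j ≤ N → H.dist (f i) (f j) = min (j - i) (N - (j - i)))
    (hf0 : f 0 = v) (hfN : f N = v) (h1 : H'.Adj u (f 1)) (h2 : H'.Adj u (f (N - 1)))
    {j : ℕ} (hj1 : 1 ≤ j) (hj : 2 * j ≤ N) (hd : H'.dist u (f j) < j) : False := by
  have hne : ∀ i, 1 ≤ i → i < N → f i ≠ v := by
    intro i hi hi2 h
    have := iso 0 i (by omega) (by omega)
    rw [hf0, h, dist_self] at this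
    omega
  have hne' : ∀ {a b : V}, H'.Adj a b → b ≠ v := by
    rintro a b hab rfl
    exact hv a hab.symm
  have huv' : u ≠ v := huv.ne.symm
  have e1 := iso 0 j (by omega) (by omega)
  rw [hf0] at e1
  have e2 := adj_dist huv (f j)
  have e3 := hdist u (f j) huv' (hne j hj1 (by omega))
  have e4 := iso j (N - 1) (by omega) (by omega)
  have e5 := adj_dist' h2.symm (f j)
  have e6 := hdist (f j) (f (N - 1)) (hne j hj1 (by omega)) (hne _ (by omega) (by omega))
  have e7 : H'.dist (f j) u = H'.dist u (f j) := H'.dist_comm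
  have hux : H'.dist u (f j) = j - 1 := by omega
  have hcases : N = 2 * j ∨ N = 2 * j + 1 := by omega
  have D1 : H.dist (f 1) (f (N - 2)) = 3 := by
    rw [iso 1 (N - 2) (by omega) (by omega)]; omega
  have D2 : H.dist (f 2) (f (N - 1)) = 3 := by
    rw [iso 2 (N - 1) (by omega) (by omega)]; omega
  have hN1 : f (N - 1) ≠ v := hne _ (by omega) (by omega)
  have hN2 : f (N - 2) ≠ v := hne _ (by omega) (by omega)
  have hf1 : f 1 ≠ v := hne _ (by omega) (by omega)
  have hf2 : f 2 ≠ v := hne _ (by omega) (by omega)
  have hfj : f j ≠ v := hne _ (by omega) (by omega)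
  have adjN : H'.Adj (f (N - 1)) (f (N - 2)) := by
    refine (hback _ _ hN2 hN1 (adj_of_dist_one ?_)).symm
    rw [iso (N - 2) (N - 1) (by omega) (by omega)]; omega
  have adj1 : H'.Adj (f 1) (f 2) := by
    refine hback _ _ hf1 hf2 (adj_of_dist_one ?_)
    rw [iso 1 2 (by omega) (by omega)]; omega
  rcases hcases with hc | hc
  · -- even case
    have c1 : H'.dist (f 1) (f j) = j - 1 := by
      rw [hdist _ _ hf1 hfj, iso 1 j (by omega) (by omega)]; omega
    have c2 : H'.dist (f (N - 1)) (f j) = j - 1 := by
      rw [hdist _ _ hN1 hfj, H.dist_comm, iso j (N - 1) (by omega) (by omega)]; omega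
    have c3 : H'.dist (f 2) (f j) + 1 = j - 1 := by
      rw [hdist _ _ hf2 hfj, iso 2 j (by omega) (by omega)]; omega
    have c4 : H'.dist (f (N - 2)) (f j) + 1 = j - 1 := by
      rw [hdist _ _ hN2 hfj, H.dist_comm, iso j (N - 2) (by omega) (by omega)]; omega
    obtain ⟨wa, hua, h1a, hwa⟩ := (wm hH' (j - 1)).2 u (f 1) (f j) h1 hux c1 (by omega)
    obtain ⟨wb, hub, h2b, hwb⟩ := (wm hH' (j - 1)).2 u (f (N - 1)) (f j) h2 hux c2 (by omega)
    have i1 := (wm hH' (j - 1)).1 (f 1) (f j) wa (f 2) c1 h1a adj1 hwa c3
    have i2 := (wm hH' (j - 1)).1 (f (N - 1)) (f j) wb (f (N - 2)) c2 h2b adjN hwb c4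
    have i3 := (wm hH' (j - 1)).1 u (f j) wa wb hux hua hub hwa hwb
    -- distances from f 1 to wb etc.
    have hwbne : wb ≠ v := hne' hub
    have hwane : wa ≠ v := hne' hua
    have k1 : H.dist (f 1) wa = 1 := dist_adj (hle h1a)
    have k2 : H.dist (f (N - 1)) wb = 1 := dist_adj (hle h2b)
    have hD1 : ∀ w, H.Adj (f 1) w → ¬ (w = f (N - 2) ∨ H.Adj w (f (N - 2))) := by
      intro w hw h
      have q1 := adj_dist hw (f (N - 2))
      rcases h with h | h
      · rw [h, dist_self] at q1; omega
      · have := dist_adj h; omega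
    have hD2 : ∀ w, H.Adj (f (N - 1)) w → ¬ (w = f 2 ∨ H.Adj w (f 2)) := by
      intro w hw h
      have q1 := adj_dist' hw (f 2)
      rcases h with h | h
      · rw [h, dist_self] at q1; omega
      · have := dist_adj h.symm; omega
    have i1' : wa = f 2 ∨ H.Adj wa (f 2) := i1.imp id (fun h => hle h)
    have i2' : wb = f (N - 2) ∨ H.Adj wb (f (N - 2)) := i2.imp id (fun h => hle h)
    rcases i3 with h | hab
    · subst h
      exact hD1 wa (hle h1a) i2'
    have hab' : H.Adj wa wb := hle hab
    have wb2 : H.Adj wb (f (N - 2)) := by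
      rcases i2' with h | h
      · exact absurd (Or.inr (h ▸ hab')) (hD1 wa (hle h1a))
      · exact h
    have wa2 : H.Adj wa (f 2) := by
      rcases i1' with h | h
      · exact absurd (Or.inr (h ▸ hab'.symm)) (hD2 wb (hle h2b))
      · exact h
    by_cases h8 : 8 ≤ N
    · have q0 : H.dist (f 2) (f (N - 2)) = 4 := by
        rw [iso 2 (N - 2) (by omega) (by omega)]; omega
      have q1 := adj_dist wa2.symm (f (N - 2))
      have q2 := adj_dist hab' (f (N - 2))
      have q3 := dist_adj wb2
      omega
    · have hN6 : N = 6 := by omega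
      subst hN6
      have hj3 : j = 3 := by omega
      subst hj3
      have d3 : H.dist v (f 3) = 3 := by
        rw [← hf0, iso 0 3 (by omega) (by omega)]; omega
      have dwa : H.dist wa (f 3) = 1 := by
        rw [← hdist _ _ hwane hfj]; omega
      have dwb : H.dist wb (f 3) = 1 := by
        rw [← hdist _ _ hwbne hfj]; omega
      have d15 : H.dist (f 1) (f 5) = 2 := by
        rw [iso 1 5 (by omega) (by omega)]; omega
      have av1 : H.Adj v (f 1) := by
        rw [← hf0]
        exact adj_of_dist_one (by rw [iso 0 1 (by omega) (by omega)]; omega)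
      have a5v : H.Adj (f 5) v := by
        rw [← hfN]
        exact adj_of_dist_one (by rw [iso 5 6 (by omega) (by omega)]; omega)
      refine h5 v (f 1) wa wb (f 5) av1 (hle h1a) hab' (hle h2b.symm) a5v ?_ ?_ ?_ ?_ ?_
        hwane.symm hwbne.symm ?_ ?_ ?_
      · intro h; have := adj_dist h (f 3); omega
      · intro h; have := adj_dist h (f 3); omega
      · intro h; exact hD1 wb h (Or.inr wb2)
      · intro h; have := dist_adj h; omega
      · intro h; exact hD2 wa h.symm (Or.inr wa2)
      · intro h
        have := dist_adj wb2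
        rw [← h] at this
        simp only [show 6 - 2 = 4 from rfl] at D1 this
        omega
      · intro h; rw [h, dist_self] at d15; omega
      · intro h
        have := dist_adj wa2.symm
        rw [h] at this
        simp only [show 6 - 1 = 5 from rfl] at D2 this
        omega
  · -- odd case
    have c2 : H'.dist (f (N - 1)) (f j) = j := by
      rw [hdist _ _ hN1 hfj, H.dist_comm, iso j (N - 1) (by omega) (by omega)]; omega
    have c4 : H'.dist (f (N - 2)) (f j) + 1 = j := by
      rw [hdist _ _ hN2 hfj, H.dist_comm, iso j (N - 2) (by omega) (by omega)]; omega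
    have i1 := (wm hH' j).1 (f (N - 1)) (f j) u (f (N - 2)) c2 h2.symm adjN (by omega) c4
    have q1 := adj_dist (hle h1.symm) (f (N - 2))
    rcases i1 with h | h
    · rw [h, dist_self] at q1; omega
    · have := dist_adj (hle h); omega

/-- A retraction does not increase distances. -/
lemma walk_retr {r : V → V} (hr : ∀ x y, H.Adj x y → r x = r y ∨ H'.Adj (r x) (r y))
    {x y : V} (p : H.Walk x y) : ∃ q : H'.Walk (r x) (r y), q.length ≤ p.length := by
  induction p with
  | nil => exact ⟨Walk.nil, le_rfl⟩
  | @cons a b c hab q ih =>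
    obtain ⟨q', hq'⟩ := ih
    rcases hr a b hab with h | h
    · exact ⟨q'.copy h.symm rfl, by simp; omega⟩
    · exact ⟨Walk.cons h q', by simpa using hq'⟩

lemma dist_retr {r : V → V} (hr : ∀ x y, H.Adj x y → r x = r y ∨ H'.Adj (r x) (r y))
    {x y : V} (h : H.Reachable x y) :
    H'.Reachable (r x) (r y) ∧ H'.dist (r x) (r y) ≤ H.dist x y := by
  obtain ⟨p, hp⟩ := h.exists_walk_length_eq_dist
  obtain ⟨q, hq⟩ := walk_retr hr p
  exact ⟨q.reachable, (dist_le q).trans (hq.trans hp.le)⟩

/-- a cycle without shortcuts, as a periodic function -/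
lemma iso_of_cycle {w : V} {c : H.Walk w w} (hlen : 4 ≤ c.length)
    (hcon : ∀ i j : ℕ, i ≤ j → j < c.length →
      min (j - i) (c.length - (j - i)) ≤ H.dist (c.getVert i) (c.getVert j)) :
    ∃ f : ℕ → V, (∀ i, H.Adj (f i) (f (i + 1))) ∧ (∀ i, f (i + c.length) = f i) ∧
      ∀ i s, s ≤ c.length → H.dist (f i) (f (i + s)) = min s (c.length - s) := by
  set N := c.length with hN
  refine ⟨fun i => c.getVert (i % N), ?_, ?_, ?_⟩
  · intro i
    have hlt : i % N < N := Nat.mod_lt _ (by omega)
    have h := c.adj_getVert_succ (i := i % N) (by omega)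
    by_cases h2 : i % N + 1 = N
    · have h3 : (i + 1) % N = 0 := by
        rw [← Nat.mod_add_mod, h2, Nat.mod_self]
      rw [h2, hN, c.getVert_length] at h
      show H.Adj (c.getVert (i % N)) (c.getVert ((i + 1) % N))
      rw [h3, c.getVert_zero]
      exact h
    · have h3 : (i + 1) % N = i % N + 1 := by
        rw [← Nat.mod_add_mod, Nat.mod_eq_of_lt (by omega)]
      show H.Adj (c.getVert (i % N)) (c.getVert ((i + 1) % N))
      rw [h3]; exact h
  · intro i
    show c.getVert ((i + N) % N) = c.getVert (i % N)
    rw [Nat.add_mod_right]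
  · intro i s hs
    show H.dist (c.getVert (i % N)) (c.getVert ((i + s) % N)) = _
    have hlt : i % N < N := Nat.mod_lt _ (by omega)
    obtain ⟨a, ha⟩ : ∃ a, a = i % N := ⟨_, rfl⟩
    have hmod : (i + s) % N = (a + s) % N := by rw [ha, Nat.mod_add_mod]
    rw [hmod, ← ha]
    have hchain : ∀ k < N, H.Adj (c.getVert k) (c.getVert (k + 1)) := fun k hk =>
      c.adj_getVert_succ (by omega)
    have hup : ∀ p q, p ≤ q → q < N →
        H.dist (c.getVert p) (c.getVert q) = min (q - p) (N - (q - p)) := by
      intro p q hpq hq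
      have l := hcon p q hpq hq
      have u1 := dist_chain hchain hpq (by omega : q ≤ N)
      have u2 := dist_chain hchain (Nat.zero_le p) (by omega : p ≤ N)
      have u3 := dist_chain hchain (by omega : q ≤ N) le_rfl
      have r1 := reach_chain hchain (Nat.zero_le p) (by omega : p ≤ N)
      have e0 : c.getVert N = c.getVert 0 := by rw [hN, c.getVert_length, c.getVert_zero]
      rw [e0] at u3
      have t := r1.symm.dist_triangle_left (c.getVert q)
      have s1 : H.dist (c.getVert p) (c.getVert 0) = H.dist (c.getVert 0) (c.getVert p) :=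
        H.dist_comm
      have s2 : H.dist (c.getVert 0) (c.getVert q) = H.dist (c.getVert q) (c.getVert 0) :=
        H.dist_comm
      omega
    by_cases h1 : a + s < N
    · rw [Nat.mod_eq_of_lt h1, hup a (a + s) (by omega) h1]
      congr 1 <;> omega
    · have h2 : (a + s) % N = a + s - N := by
        rw [Nat.mod_eq_sub_mod (by omega), Nat.mod_eq_of_lt (by omega)]
      rw [h2, H.dist_comm, hup (a + s - N) a (by omega) (by omega)]
      rw [min_comm]
      congr 1 <;> omega

/-- Adding a dominated vertex. -/
lemma ext_main (hH' : Br H') (h4 : NoC4 H) (h5 : NoC5 H) {v u : V} (hle : H' ≤ H)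
    (hv : ∀ x, ¬ H'.Adj v x) (huv : H.Adj v u)
    (hback : ∀ x y, x ≠ v → y ≠ v → H.Adj x y → H'.Adj x y)
    (hdom : ∀ x, H.Adj v x → x = u ∨ H'.Adj u x) : Br H := by
  classical
  have huv' : u ≠ v := huv.ne.symm
  -- distances
  have hdist : ∀ x y, x ≠ v → y ≠ v → H'.dist x y = H.dist x y := by
    intro x y hx hy
    have hr : ∀ a b, H.Adj a b → (if a = v then u else a) = (if b = v then u else b) ∨
        H'.Adj (if a = v then u else a) (if b = v then u else b) := by
      intro a b hab
      by_cases ha : a = v
      · have hb : b ≠ v := fun h => hab.ne (ha.trans h.symm)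
        subst ha
        rw [if_pos rfl, if_neg hb]
        exact (hdom b hab).imp (fun h => h.symm) id
      · by_cases hb : b = v
        · subst hb
          rw [if_neg ha, if_pos rfl]
          exact (hdom a hab.symm).imp id (fun h => h.symm)
        · rw [if_neg ha, if_neg hb]
          exact Or.inr (hback a b ha hb hab)
    by_cases hreach : H.Reachable x y
    · obtain ⟨h1, h2⟩ := dist_retr (r := fun a => if a = v then u else a) hr hreach
      simp only [if_neg hx, if_neg hy] at h1 h2
      refine le_antisymm h2 ?_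
      obtain ⟨q, hq⟩ := h1.exists_walk_length_eq_dist
      have := dist_le (q.mapLe hle)
      simpa [hq] using this
    · have h1 : ¬ H'.Reachable x y := fun h => hreach (h.mono hle)
      rw [dist_eq_zero_of_not_reachable hreach, dist_eq_zero_of_not_reachable h1]
  intro w c hc hlen
  by_contra hcon
  push Not at hcon
  obtain ⟨f, fadj, fper, fiso⟩ := iso_of_cycle hlen hcon
  set N := c.length with hN
  by_cases hvf : ∃ i0, f i0 = v
  swap
  · push Not at hvf
    obtain ⟨i, j, hij, hj, hd⟩ := br_fun hH' hlen f
      (fun i _ => hback _ _ (hvf i) (hvf (i + 1)) (fadj i))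
      (by have := fper 0; rwa [Nat.zero_add] at this) (by
        intro i j hij hj h
        have := fiso i (j - i) (by omega)
        rw [show i + (j - i) = j by omega, ← h, dist_self] at this
        omega)
    rw [hdist _ _ (hvf i) (hvf j)] at hd
    have := fiso i (j - i) (by omega)
    rw [show i + (j - i) = j by omega] at this
    omega
  obtain ⟨i0, hi0⟩ := hvf
  -- shift
  obtain ⟨g, hg⟩ : ∃ g : ℕ → V, g = fun i => f (i0 + i) := ⟨_, rfl⟩
  have gadj : ∀ i, H.Adj (g i) (g (i + 1)) := fun i => by rw [hg]; exact fadj (i0 + i)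
  have gper : g N = g 0 := by rw [hg]; exact fper i0
  have giso : ∀ i j, i ≤ j → j ≤ N → H.dist (g i) (g j) = min (j - i) (N - (j - i)) := by
    intro i j hij hj
    have := fiso (i0 + i) (j - i) (by omega)
    rw [hg]
    rw [show i0 + i + (j - i) = i0 + j by omega] at this
    exact this
  have g0 : g 0 = v := by rw [hg]; exact hi0
  have gN : g N = v := gper.trans g0
  rcases (by omega : N = 4 ∨ N = 5 ∨ 6 ≤ N) with h | h | h
  · -- N = 4
    rw [h] at giso gN
    have d02 := giso 0 2 (by omega) (by omega)
    have d13 := giso 1 3 (by omega) (by omega)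
    have a30 : H.Adj (g 3) (g 0) := by rw [g0, ← gN]; exact gadj 3
    have := h4 (g 0) (g 1) (g 2) (g 3) (gadj 0) (gadj 1) (gadj 2) a30
      (by intro e; rw [e, dist_self] at d02; omega) (by intro e; rw [e, dist_self] at d13; omega)
      (by intro e; have := dist_adj e; omega)
    have := dist_adj this
    omega
  · rw [h] at giso gN
    have d02 := giso 0 2 (by omega) (by omega)
    have d03 := giso 0 3 (by omega) (by omega)
    have d13 := giso 1 3 (by omega) (by omega)
    have d14 := giso 1 4 (by omega) (by omega)
    have d24 := giso 2 4 (by omega) (by omega)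
    have a40 : H.Adj (g 4) (g 0) := by rw [g0, ← gN]; exact gadj 4
    exact h5 (g 0) (g 1) (g 2) (g 3) (g 4) (gadj 0) (gadj 1) (gadj 2) (gadj 3) a40
      (by intro e; have := dist_adj e; omega) (by intro e; have := dist_adj e; omega)
      (by intro e; have := dist_adj e; omega) (by intro e; have := dist_adj e; omega)
      (by intro e; have := dist_adj e; omega)
      (by intro e; rw [e, dist_self] at d02; omega) (by intro e; rw [e, dist_self] at d03; omega)
      (by intro e; rw [e, dist_self] at d13; omega) (by intro e; rw [e, dist_self] at d14; omega)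
      (by intro e; rw [e, dist_self] at d24; omega)
  -- N ≥ 6
  have hne : ∀ i, 1 ≤ i → i < N → g i ≠ v := by
    intro i hi hi2 e
    have := giso 0 i (by omega) (by omega)
    rw [g0, e, dist_self] at this
    omega
  have av1 : H.Adj v (g 1) := by rw [← g0]; exact gadj 0
  have avN : H.Adj v (g (N - 1)) := by
    have := gadj (N - 1)
    rw [show N - 1 + 1 = N by omega, gN] at this
    exact this.symm
  have d1N := giso 1 (N - 1) (by omega) (by omega)
  have hu1 : g 1 ≠ u := by
    intro e
    rcases hdom _ avN with h2 | h2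
    · rw [e, h2, dist_self] at d1N; omega
    · have := dist_adj (hle h2); rw [e] at d1N; omega
  have huN : g (N - 1) ≠ u := by
    intro e
    rcases hdom _ av1 with h2 | h2
    · exact hu1 h2
    · have := dist_adj (hle h2); rw [e, H.dist_comm] at d1N; omega
  have h1 : H'.Adj u (g 1) := (hdom _ av1).resolve_left hu1
  have h2 : H'.Adj u (g (N - 1)) := (hdom _ avN).resolve_left huN
  have hug : ∀ i, 1 ≤ i → i < N → u ≠ g i := by
    intro i hi hi2 e
    have d := giso 0 i (by omega) (by omega)
    rw [g0, ← e, dist_adj huv] at d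
    rcases (by omega : i = 1 ∨ i = N - 1) with h3 | h3
    · subst h3; exact hu1 e.symm
    · subst h3; exact huN e.symm
  -- the modified cycle
  obtain ⟨i, j, hij, hj, hd⟩ := br_fun hH' hlen (fun i => if i = 0 ∨ i = N then u else g i)
    (by
      intro i hi
      by_cases hi0 : i = 0
      · subst hi0
        simp only [true_or, if_true]
        rw [if_neg (by omega)]
        exact h1
      · by_cases hiN : i + 1 = N
        · simp only [hiN, or_true, if_true]
          rw [if_neg (by omega), show i = N - 1 by omega]
          exact h2.symm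
        · rw [if_neg (by omega), if_neg (by omega)]
          exact hback _ _ (hne i (by omega) hi) (hne (i + 1) (by omega) (by omega)) (gadj i))
    (by simp)
    (by
      intro i j hij hj
      by_cases hi0 : i = 0
      · subst hi0
        simp only [true_or, if_true]
        rw [if_neg (by omega)]
        exact hug j (by omega) hj
      · rw [if_neg (by omega), if_neg (by omega)]
        intro e
        have d := giso i j (by omega) (by omega)
        rw [e, dist_self] at d
        omega)
  by_cases hi0' : i = 0
  swap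
  · rw [if_neg (by omega), if_neg (by omega), hdist _ _ (hne i (by omega) (by omega))
      (hne j (by omega) hj), giso i j (by omega) (by omega)] at hd
    omega
  subst hi0'
  simp only [true_or, if_true] at hd
  rw [if_neg (by omega)] at hd
  by_cases hjj : 2 * j ≤ N
  · exact ext_key hH' h5 hdist hle hv huv hback h g giso g0 gN h1 h2 (by omega) hjj (by omega)
  · -- reversed cycle
    have riso : ∀ i j, i ≤ j → j ≤ N → H.dist (g (N - i)) (g (N - j)) =
        min (j - i) (N - (j - i)) := by
      intro i j hij hj
      rw [H.dist_comm, giso (N - j) (N - i) (by omega) (by omega)]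
      congr 1 <;> omega
    refine ext_key hH' h5 hdist hle hv huv hback h (fun i => g (N - i)) riso (by simpa using gN)
      (by simpa using g0) h2 ?_ (j := N - j) (by omega) (by omega) ?_
    · show H'.Adj u (g (N - (N - 1)))
      rw [show N - (N - 1) = 1 by omega]; exact h1
    · show H'.dist u (g (N - (N - j))) < N - j
      rw [show N - (N - j) = j by omega]; omega

end Pool.Agent.W111.Bridged
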