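import Pool.Agent.W111.BrWM

set_option autoImplicit false

namespace Pool.Agent.W111.Bridged

open SimpleGraph

variable {V : Type*} {G : SimpleGraph V}

section tc

variable {k : ℕ} {x x' y : V}

/-- Step 1' -/
lemma tc_step1 (hT : ∀ m < k, TC G m) (hxx : G.Adj x x') (hxy : G.dist x y = k)
    (hx'y : G.dist x' y = k) (hk : 2 ≤ k)
    (hno : ∀ w, G.Adj x w → G.Adj x' w → G.dist w y + 1 = k → False)
    {m : V} {t : ℕ} (ht : 1 ≤ t) (hmy : G.dist m y = t) (h1 : G.dist x m + t ≤ k)
    (h2 : G.dist x' m + t ≤ k) : False := by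
  have hrmy : G.Reachable m y := reach_of_dist hmy ht
  have hrxy : G.Reachable x y := reach_of_dist hxy (by omega)
  have hrx'y : G.Reachable x' y := reach_of_dist hx'y (by omega)
  have h3 : G.dist x y ≤ G.dist x m + G.dist m y := (hrxy.trans hrmy.symm).dist_triangle_left y
  have h4 : G.dist x' y ≤ G.dist x' m + G.dist m y := (hrx'y.trans hrmy.symm).dist_triangle_left y
  have hpos : 1 ≤ k - t := by
    by_contra hcon
    have e1 : x = m := eq_of_dist_zero (hrxy.trans hrmy.symm) (by omega)
    have e2 : x' = m := eq_of_dist_zero (hrx'y.trans hrmy.symm) (by omega)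
    exact hxx.ne (e1.trans e2.symm)
  obtain ⟨w, hw1, hw2, hw3⟩ := hT (k - t) (by omega) x x' m hxx (by omega) (by omega) hpos
  have hrwm : G.Reachable w m := hw1.symm.reachable.trans (hrxy.trans hrmy.symm)
  have h5 : G.dist w y ≤ G.dist w m + G.dist m y := hrwm.dist_triangle_left y
  have h6 := adj_dist hw1 y
  exact hno w hw1 hw2 (by omega)

/-- Step 2' -/
lemma tc_step2 (hIk : INC G k) (hT : ∀ m < k, TC G m) (hxx : G.Adj x x') (hxy : G.dist x y = k)
    (hx'y : G.dist x' y = k) (hk : 2 ≤ k)
    (hno : ∀ w, G.Adj x w → G.Adj x' w → G.dist w y + 1 = k → False)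
    {u v : V} (hyu : G.Adj y u) (hyv : G.Adj y v)
    (hxu : G.dist x u + 1 ≤ k) (hxv : G.dist x' v + 1 ≤ k) (huv : u = v ∨ G.Adj u v) : False := by
  have hrxy : G.Reachable x y := reach_of_dist hxy (by omega)
  have hrx'y : G.Reachable x' y := reach_of_dist hx'y (by omega)
  have du : G.dist u y = 1 := dist_eq_one_iff_adj.2 hyu.symm
  have dv : G.dist v y = 1 := dist_eq_one_iff_adj.2 hyv.symm
  rcases huv with rfl | huv
  · exact tc_step1 hT hxx hxy hx'y hk hno (m := u) (t := 1) le_rfl du hxu hxv
  have d1 := adj_dist' hyu x'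
  have d2 := adj_dist' huv x'
  have d3 := adj_dist' hyu x
  have d4 := adj_dist' hyv x'
  by_cases h : G.dist x' u + 1 ≤ k
  · exact tc_step1 hT hxx hxy hx'y hk hno (m := u) (t := 1) le_rfl du hxu h
  have hx'u : G.dist x' u = k := by omega
  obtain ⟨a', ha', ha'v⟩ := closer (G := G) (x := x') (y := v) (k := k - 2) (by omega)
  have d5 := adj_dist' huv a'
  have d6 := adj_dist ha' u
  have d7 := adj_dist' hyv a'
  have d8 := adj_dist ha' y
  rcases hIk x' u x a' hx'u hxx.symm ha' (by omega) (by omega) with h | h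
  · subst h; omega
  · exact hno a' h ha' (by omega)

/-- the reduction on the side of the edge -/
lemma tc_lemR (h4 : NoC4 G) (hIk : INC G k) (hI : ∀ m < k, INC G m) (hT : ∀ m < k, TC G m)
    (hxx : G.Adj x x') (hxy : G.dist x y = k)
    (hx'y : G.dist x' y = k) (hk : 2 ≤ k)
    (hno : ∀ w, G.Adj x w → G.Adj x' w → G.dist w y + 1 = k → False) :
    ∀ s : ℕ, ∀ p q : ℕ, p + q = s → s + 1 ≤ k → ∀ P Q : V, G.dist x P = p → G.dist x' Q = q →
      G.dist P y + p = k → G.dist Q y + q = k → G.dist P Q ≤ p + q → False := by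
  have hrxy : G.Reachable x y := reach_of_dist hxy (by omega)
  have hrx'y : G.Reachable x' y := reach_of_dist hx'y (by omega)
  intro s
  induction s with
  | zero =>
    intro p q hpq hs P Q hP hQ hPy hQy hPQ
    obtain rfl : p = 0 := by omega
    obtain rfl : q = 0 := by omega
    have r1 : G.Reachable P y := reach_of_dist rfl (by omega)
    have r2 : G.Reachable Q y := reach_of_dist rfl (by omega)
    have e1 : x = P := eq_of_dist_zero (hrxy.trans r1.symm) hP
    have e2 : x' = Q := eq_of_dist_zero (hrx'y.trans r2.symm) hQ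
    have e3 : P = Q := eq_of_dist_zero (r1.trans r2.symm) (by omega)
    exact hxx.ne (e1.trans (e3.trans e2.symm))
  | succ s ih =>
    intro p q hpq hs P Q hP hQ hPy hQy hPQ
    have r1 : G.Reachable P y := reach_of_dist rfl (by omega)
    have r2 : G.Reachable Q y := reach_of_dist rfl (by omega)
    rcases Nat.eq_zero_or_pos p with hp0 | hp
    · subst hp0
      have e1 : x = P := eq_of_dist_zero (hrxy.trans r1.symm) hP
      subst e1
      exact tc_step1 hT hxx hxy hx'y hk hno (m := Q) (t := k - q) (by omega) (by omega) (by omega)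
        (by omega)
    rcases Nat.eq_zero_or_pos q with hq0 | hq
    · subst hq0
      have e1 : x' = Q := eq_of_dist_zero (hrx'y.trans r2.symm) hQ
      subst e1
      exact tc_step1 hT hxx hxy hx'y hk hno (m := P) (t := k - p) (by omega) (by omega) (by omega)
        (by rw [G.dist_comm]; omega)
    -- the predecessor of Q towards x'
    have hQx' : G.dist Q x' = (q - 1) + 1 := by rw [G.dist_comm]; omega
    obtain ⟨Q', hQQ', hQ'⟩ := closer hQx'
    have hx'Q' : G.dist x' Q' = q - 1 := by rw [G.dist_comm]; exact hQ'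
    have hrx'Q' : G.Reachable x' Q' := hrx'y.trans (r2.symm.trans hQQ'.reachable)
    have t1 := adj_dist hQQ'.symm y
    have t2 : G.dist x' y ≤ G.dist x' Q' + G.dist Q' y := hrx'Q'.dist_triangle_left y
    have hQ'y : G.dist Q' y = k - q + 1 := by omega
    by_cases hlt : G.dist P Q' ≤ p + (q - 1)
    · exact ih p (q - 1) (by omega) (by omega) P Q' hP hx'Q' hPy (by omega) hlt
    have t3 := adj_dist' hQQ'.symm P
    have hrPx : G.Reachable P x := r1.trans hrxy.symm
    have t4 : G.dist P Q' ≤ G.dist P x + G.dist x Q' := hrPx.dist_triangle_left Q'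
    have t5 := adj_dist hxx Q'
    have hPx : G.dist P x = p := by rw [G.dist_comm]; exact hP
    have hPQ' : G.dist P Q' = s + 1 := by omega
    have hQ'P : G.dist Q' P = s + 1 := by rw [G.dist_comm]; exact hPQ'
    have hQPc : G.dist Q P = G.dist P Q := G.dist_comm
    -- x is not adjacent to Q when q = 1
    rcases Nat.eq_or_lt_of_le (show 1 ≤ q from hq) with hq1 | hq2
    · -- q = 1
      have e1 : x' = Q' := eq_of_dist_zero hrx'Q' (by omega)
      subst e1
      have hnxQ : ¬ G.Adj x Q := fun h => hno Q h hQQ'.symm (by omega)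
      have hxQ : x ≠ Q := by rintro rfl; omega
      rcases (by omega : G.dist P Q + 1 = s + 1 ∨ G.dist P Q = s + 1) with hc | hc
      · rcases hI (s + 1) (by omega) x' P Q x hQ'P hQQ'.symm hxx.symm (by omega) (by omega) with h | h
        · exact hxQ h.symm
        · exact hnxQ h.symm
      · obtain ⟨w, hQw, hx'w, hw⟩ := hT (s + 1) (by omega) Q x' P hQQ' (by omega) hQ'P (by omega)
        rcases hI (s + 1) (by omega) x' P w x hQ'P hx'w hxx.symm hw (by omega) with h | h
        · subst h; exact hnxQ hQw.symm
        · -- w ~ x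
          have t6 := adj_dist h.symm y
          have t7 := adj_dist hQw.symm y
          by_cases hwk : G.dist w y + 1 = k
          · exact hno w h.symm hx'w hwk
          have hwy : G.dist w y = k := by omega
          obtain ⟨e, hxe, hwe, heP⟩ := hT p (by omega) x w P h.symm hP (by omega) hp
          have hreP : G.Reachable e P := hxe.symm.reachable.trans hrPx.symm
          have t8 : G.dist e y ≤ G.dist e P + G.dist P y := hreP.dist_triangle_left y
          have t9 := adj_dist hxe y
          have hey : G.dist e y + 1 = k := by omega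
          rcases hIk w y Q e hwy hQw.symm hwe (by omega) hey with h2 | h2
          · subst h2; exact hnxQ hxe
          · have hne : e ≠ x' := by rintro rfl; omega
            have := h4 x e Q x' hxe h2.symm hQQ' hxx.symm hxQ hne hnxQ
            exact hno e hxe this.symm hey
    · -- q ≥ 2
      obtain ⟨Q'', hQ'Q'', hQ''⟩ := closer (G := G) (x := Q') (y := x') (k := q - 2) (by omega)
      have hx'Q'' : G.dist x' Q'' = q - 2 := by rw [G.dist_comm]; exact hQ''
      have t6 : G.dist P Q'' ≤ G.dist P x + G.dist x Q'' := hrPx.dist_triangle_left Q''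
      have t7 := adj_dist hxx Q''
      have t8 := adj_dist' hQ'Q'' P
      have hQ''P : G.dist Q'' P + 1 = s + 1 := by rw [G.dist_comm]; omega
      have hnadj : ¬ G.Adj Q Q'' := by
        intro h
        have := adj_dist h x'
        omega
      rcases (by omega : G.dist P Q + 1 = s + 1 ∨ G.dist P Q = s + 1) with hc | hc
      · rcases hI (s + 1) (by omega) Q' P Q Q'' hQ'P hQQ'.symm hQ'Q'' (by omega) hQ''P with h | h
        · subst h; omega
        · exact hnadj h
      · obtain ⟨w, hQw, hQ'w, hw⟩ := hT (s + 1) (by omega) Q Q' P hQQ' (by omega) hQ'P (by omega)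
        rcases hI (s + 1) (by omega) Q' P w Q'' hQ'P hQ'w hQ'Q'' hw hQ''P with h | h
        · subst h; exact hnadj hQw
        · have t9 := adj_dist' h x'
          have t10 := adj_dist' hQw x'
          have hx'w : G.dist x' w = q - 1 := by omega
          have hrx'w : G.Reachable x' w := hrx'Q'.trans hQ'w.reachable
          have t11 := adj_dist hQw.symm y
          have t12 : G.dist x' y ≤ G.dist x' w + G.dist w y := hrx'w.dist_triangle_left y
          exact ih p (q - 1) (by omega) (by omega) P w hP hx'w hPy (by omega)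
            (by rw [G.dist_comm]; omega)

end tc

lemma tc_main (hG : Br G) {k : ℕ} (hk : 2 ≤ k) (hI : ∀ m < k, INC G m) (hT : ∀ m < k, TC G m)
    (hIk : INC G k) : TC G k := by
  have h4 : NoC4 G := br_noC4 hG
  intro x x' y hxx hxy hx'y _
  by_contra hcon
  have hno : ∀ w, G.Adj x w → G.Adj x' w → G.dist w y + 1 = k → False :=
    fun w h1 h2 h3 => hcon ⟨w, h1, h2, h3⟩
  have hrxy : G.Reachable x y := reach_of_dist hxy (by omega)
  have hrx'y : G.Reachable x' y := reach_of_dist hx'y (by omega)
  obtain ⟨α, hα0, hαk, hαadj, hαd⟩ := geo (G := G) hrxy.symm (m := k)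
    (by rw [G.dist_comm]; omega)
  obtain ⟨β, hβ0, hβk, hβadj, hβd⟩ := geo (G := G) hrx'y.symm (m := k)
    (by rw [G.dist_comm]; omega)
  have hdisj : ∀ i j, 1 ≤ i → i ≤ k → j ≤ k → α i ≠ β j := by
    intro i j hi hi2 hj h
    have h1 := hαd 0 i (by omega) (by omega)
    have h2 := hβd 0 j (by omega) (by omega)
    rw [hα0] at h1
    rw [hβ0, ← h] at h2
    obtain rfl : i = j := by omega
    have h3 := hαd i k (by omega) (by omega)
    have h4 := hβd i k (by omega) (by omega)
    rw [hαk] at h3
    rw [hβk, ← h] at h4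
    exact tc_step1 hT hxx hxy hx'y hk hno (m := α i) (t := i) hi
      (by rw [G.dist_comm]; omega) (by rw [G.dist_comm]; omega) (by rw [G.dist_comm]; omega)
  set f : ℕ → V := fun i => if i ≤ k then α i else β (2 * k + 1 - i) with hf
  have hfadj : ∀ i < 2 * k + 1, G.Adj (f i) (f (i + 1)) := by
    intro i hi
    simp only [hf]
    by_cases h1 : i + 1 ≤ k
    · rw [if_pos (by omega), if_pos h1]; exact hαadj i (by omega)
    · by_cases h2 : i ≤ k
      · have : i = k := by omega
        subst this
        rw [if_pos le_rfl, if_neg h1, hαk, show 2 * i + 1 - (i + 1) = i by omega, hβk]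
        exact hxx
      · rw [if_neg h2, if_neg h1]
        have := hβadj (2 * k + 1 - (i + 1)) (by omega)
        rw [show 2 * k + 1 - (i + 1) + 1 = 2 * k + 1 - i by omega] at this
        exact this.symm
  have hfcl : f (2 * k + 1) = f 0 := by
    simp only [hf]
    rw [if_neg (by omega), if_pos (by omega), Nat.sub_self, hα0, hβ0]
  have hfinj : ∀ i j, i < j → j < 2 * k + 1 → f i ≠ f j := by
    intro i j hij hj h
    simp only [hf] at h
    by_cases h1 : j ≤ k
    · rw [if_pos (by omega), if_pos h1] at h
      have := hαd i j (by omega) h1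
      rw [h, dist_self] at this
      omega
    · rw [if_neg h1] at h
      by_cases h2 : i ≤ k
      · rw [if_pos h2] at h
        rcases Nat.eq_zero_or_pos i with h0 | h0
        · subst h0
          rw [hα0, ← hβ0] at h
          have := hβd 0 (2 * k + 1 - j) (by omega) (by omega)
          rw [← h, dist_self] at this
          omega
        · exact hdisj i _ h0 h2 (by omega) h
      · rw [if_neg h2] at h
        have := hβd (2 * k + 1 - j) (2 * k + 1 - i) (by omega) (by omega)
        rw [← h, dist_self] at this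
        omega
  obtain ⟨i, j, hij, hj, hd⟩ := br_fun hG (N := 2 * k + 1) (by omega) f hfadj hfcl hfinj
  simp only [hf] at hd
  by_cases h1 : j ≤ k
  · rw [if_pos (by omega), if_pos h1] at hd
    have := hαd i j (by omega) h1
    omega
  rw [if_neg h1] at hd
  by_cases h2 : i ≤ k
  swap
  · rw [if_neg h2, G.dist_comm] at hd
    have := hβd (2 * k + 1 - j) (2 * k + 1 - i) (by omega) (by omega)
    omega
  rw [if_pos h2] at hd
  rcases Nat.eq_zero_or_pos i with h0 | h0
  · subst h0
    rw [hα0, ← hβ0] at hd
    have := hβd 0 (2 * k + 1 - j) (by omega) (by omega)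
    omega
  obtain ⟨j', hj'⟩ : ∃ j', j' = 2 * k + 1 - j := ⟨_, rfl⟩
  rw [← hj'] at hd
  have hj1 : 1 ≤ j' := by omega
  have hj2 : j' ≤ k := by omega
  have hd1 : G.dist (α i) (β j') < i + j' := by omega
  have hd2 : G.dist (α i) (β j') ≤ (k - i) + (k - j') := by omega
  have ei := hαd 0 i (by omega) (by omega)
  have ej := hβd 0 j' (by omega) (by omega)
  have ei3 := hαd i k (by omega) (by omega)
  have ej3 := hβd j' k (by omega) (by omega)
  have rx : G.Reachable x (α i) := by
    have := reach_chain hαadj (i := i) (j := k) (by omega) (by omega)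
    rw [hαk] at this; exact this.symm
  have rx' : G.Reachable x' (β j') := by
    have := reach_chain hβadj (i := j') (j := k) (by omega) (by omega)
    rw [hβk] at this; exact this.symm
  rw [hα0] at ei
  rw [hβ0] at ej
  rw [hαk] at ei3
  rw [hβk] at ej3
  have ei' : G.dist (α i) y = i := by rw [G.dist_comm]; omega
  have ej' : G.dist (β j') y = j' := by rw [G.dist_comm]; omega
  have ei3' : G.dist x (α i) = k - i := by rw [G.dist_comm]; omega
  have ej3' : G.dist x' (β j') = k - j' := by rw [G.dist_comm]; omega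
  by_cases hle : i + j' ≤ k
  · obtain ⟨u, v, hu, hv, hpu, hqv, huv⟩ := lemR hI hT (i + j') hle i j' rfl h0 hj1 y (α i) (β j')
      ei' ej' hd1
    have t1 := rx.dist_triangle_left u
    have t2 := rx'.dist_triangle_left v
    exact tc_step2 hIk hT hxx hxy hx'y hk hno hu hv (by omega) (by omega) huv
  · exact tc_lemR h4 hIk hI hT hxx hxy hx'y hk hno ((k - i) + (k - j')) (k - i) (k - j') rfl
      (by omega) (α i) (β j') ei3' ej3' (by omega) (by omega) hd2

lemma inc_zero : INC G 0 := by
  intro x y a b _ _ _ h _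
  omega

lemma inc_one : INC G 1 := by
  intro x y a b h ha hb h1 h2
  have hr : G.Reachable x y := reach_of_dist h le_rfl
  have e1 : a = y := eq_of_dist_zero (ha.symm.reachable.trans hr) (by omega)
  have e2 : b = y := eq_of_dist_zero (hb.symm.reachable.trans hr) (by omega)
  exact Or.inl (e1.trans e2.symm)

lemma tc_zero : TC G 0 := by
  intro x x' y _ _ _ h
  omega

lemma tc_one : TC G 1 := by
  intro x x' y _ h1 h2 _
  exact ⟨y, dist_eq_one_iff_adj.1 h1, dist_eq_one_iff_adj.1 h2, by simp⟩

theorem wm (hG : Br G) (k : ℕ) : INC G k ∧ TC G k := by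
  induction k using Nat.strong_induction_on with
  | _ k ih =>
    rcases (by omega : k = 0 ∨ k = 1 ∨ 2 ≤ k) with h | h | h
    · subst h; exact ⟨inc_zero, tc_zero⟩
    · subst h; exact ⟨inc_one, tc_one⟩
    · have hI : ∀ m < k, INC G m := fun m hm => (ih m hm).1
      have hT : ∀ m < k, TC G m := fun m hm => (ih m hm).2
      have hIk := inc_main hG h hI hT
      exact ⟨hIk, tc_main hG h hI hT hIk⟩

end Pool.Agent.W111.Bridged
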