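import Pool.Agent.W111.BrBasic

set_option autoImplicit false

namespace Pool.Agent.W111.Bridged

open SimpleGraph

variable {V : Type*} {G : SimpleGraph V}

/-- the neighbours of `x` closer to `y` form a clique, for `x, y` at distance `k` -/
def INC (G : SimpleGraph V) (k : ℕ) : Prop := ∀ x y a b : V, G.dist x y = k → G.Adj x a →
  G.Adj x b → G.dist a y + 1 = k → G.dist b y + 1 = k → a = b ∨ G.Adj a b

/-- triangle condition at distance `k` -/
def TC (G : SimpleGraph V) (k : ℕ) : Prop := ∀ x x' y : V, G.Adj x x' → G.dist x y = k →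
  G.dist x' y = k → 1 ≤ k → ∃ w, G.Adj x w ∧ G.Adj x' w ∧ G.dist w y + 1 = k

/-- The reduction lemma: if `p`, `q` at distances `i`, `j` from `y` are closer than `i + j`, then
there are equal or adjacent neighbours of `y` on geodesics from `y` to `p` and to `q`. -/
lemma lemR {k : ℕ} (hI : ∀ m < k, INC G m) (hT : ∀ m < k, TC G m) :
    ∀ s : ℕ, s ≤ k → ∀ i j : ℕ, i + j = s → 1 ≤ i → 1 ≤ j → ∀ y p q : V,
      G.dist p y = i → G.dist q y = j → G.dist p q < i + j →
      ∃ u v, G.Adj y u ∧ G.Adj y v ∧ G.dist p u + 1 = i ∧ G.dist q v + 1 = j ∧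
        (u = v ∨ G.Adj u v) := by
  intro s
  induction s with
  | zero => intro _ i j h1 h2 h3; omega
  | succ s ih =>
    intro hs i j hij hi hj y p q hp hq hpq
    have hrp : G.Reachable p y := reach_of_dist hp hi
    have hrq : G.Reachable q y := reach_of_dist hq hj
    have hrpq : G.Reachable p q := hrp.trans hrq.symm
    rcases Nat.eq_or_lt_of_le hj with hj1 | hj1
    · -- j = 1
      have hq1 : G.Adj q y := dist_eq_one_iff_adj.1 (by omega)
      have h1 : G.dist p y ≤ G.dist p q + 1 := adj_dist' hq1.symm p
      rcases (by omega : G.dist p q + 1 = i ∨ G.dist p q = i) with h2 | h2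
      · refine ⟨q, q, hq1.symm, hq1.symm, h2, ?_, Or.inl rfl⟩
        simp
        omega
      · obtain ⟨w, hyw, hqw, hwp⟩ := hT i (by omega) y q p hq1.symm
          (by rw [G.dist_comm]; exact hp) (by rw [G.dist_comm]; exact h2) hi
        refine ⟨w, q, hyw, hq1.symm, by rw [G.dist_comm]; exact hwp, ?_, Or.inr hqw.symm⟩
        simp
        omega
    rcases Nat.eq_or_lt_of_le hi with hi1 | hi1
    · have hp1 : G.Adj p y := dist_eq_one_iff_adj.1 (by omega)
      have h1 : G.dist q y ≤ G.dist q p + 1 := adj_dist' hp1.symm q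
      have h3 : G.dist p q = G.dist q p := G.dist_comm
      rcases (by omega : G.dist q p + 1 = j ∨ G.dist q p = j) with h2 | h2
      · refine ⟨p, p, hp1.symm, hp1.symm, ?_, h2, Or.inl rfl⟩
        simp
        omega
      · obtain ⟨w, hyw, hqw, hwp⟩ := hT j (by omega) y p q hp1.symm
          (by rw [G.dist_comm]; exact hq) (by rw [G.dist_comm]; exact h2) hj
        refine ⟨p, w, hp1.symm, hyw, ?_, by rw [G.dist_comm]; exact hwp, Or.inr hqw⟩
        simp
        omega
    -- both at least two
    obtain ⟨q', hqq', hq'⟩ := closer (G := G) (x := q) (y := y) (k := j - 1) (by omega)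
    have hq'1 : G.dist q' y = j - 1 := hq'
    by_cases hlt : G.dist p q' < i + (j - 1)
    · obtain ⟨u, v, h1, h2, h3, h4, h5⟩ := ih (by omega) i (j - 1) (by omega) hi (by omega)
        y p q' hp hq'1 hlt
      refine ⟨u, v, h1, h2, h3, ?_, h5⟩
      have h6 := adj_dist hqq' v
      have h7 := adj_dist' h2 q
      omega
    · -- d(p,q') = i + j - 1
      have h8 : G.dist p q' ≤ G.dist p y + G.dist y q' := hrp.dist_triangle_left q'
      have h9 : G.dist y q' = j - 1 := by rw [G.dist_comm]; exact hq'1
      have hpq' : G.dist p q' = i + j - 1 := by omega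
      have hge : i + j - 1 ≤ G.dist p q + 1 := by
        have := adj_dist' hqq'.symm p
        omega
      obtain ⟨q'', hqq'', hq''⟩ := closer (G := G) (x := q') (y := y) (k := j - 2) (by omega)
      have h10 : G.dist p q'' ≤ G.dist p y + G.dist y q'' := hrp.dist_triangle_left q''
      have h11 : G.dist y q'' = j - 2 := by rw [G.dist_comm]; exact hq''
      have h12 : G.dist p q' ≤ G.dist p q'' + 1 := adj_dist' hqq'' p
      have hq''2 : G.dist q'' p + 1 = i + j - 1 := by rw [G.dist_comm]; omega
      have hq'p : G.dist q' p = i + j - 1 := by rw [G.dist_comm]; omega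
      have hqp : G.dist q p = G.dist p q := G.dist_comm
      have hnadj : ¬ G.Adj q q'' := by
        intro h
        have := adj_dist h y
        omega
      rcases (by omega : G.dist p q + 1 = i + j - 1 ∨ G.dist p q = i + j - 1) with h2 | h2
      · exfalso
        rcases hI (i + j - 1) (by omega) q' p q q'' hq'p hqq'.symm hqq'' (by omega) hq''2 with h | h
        · subst h; omega
        · exact hnadj h
      · obtain ⟨w, hqw, hq'w, hw⟩ := hT (i + j - 1) (by omega) q q' p hqq' (by omega) hq'p
          (by omega)
        rcases hI (i + j - 1) (by omega) q' p w q'' hq'p hq'w hqq'' hw hq''2 with h | h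
        · subst h; exact absurd hqw hnadj
        · have h13 := adj_dist h y
          have h14 := adj_dist hqw y
          have hwy : G.dist w y = j - 1 := by omega
          have hpw : G.dist p w < i + (j - 1) := by
            rw [G.dist_comm] ; omega
          obtain ⟨u, v, k1, k2, k3, k4, k5⟩ := ih (by omega) i (j - 1) (by omega) hi (by omega)
            y p w hp hwy hpw
          refine ⟨u, v, k1, k2, k3, ?_, k5⟩
          have h6 := adj_dist hqw v
          have h7 := adj_dist' k2 q
          omega

section inc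

variable {k : ℕ} (hI : ∀ m < k, INC G m) (hT : ∀ m < k, TC G m) (h4 : NoC4 G) (h5 : NoC5 G)

include hI in
/-- Step 1 -/
lemma inc_step1 {x y a b : V} (hxy : G.dist x y = k) (hxa : G.Adj x a) (hxb : G.Adj x b)
    (hk : 2 ≤ k)
    (hne : a ≠ b) (hnab : ¬ G.Adj a b) {m : V} {t : ℕ} (ht : 1 ≤ t)
    (hmy : G.dist m y = t) (ham : G.dist a m + t + 1 ≤ k) (hbm : G.dist b m + t + 1 ≤ k) :
    False := by
  have hrmy : G.Reachable m y := reach_of_dist hmy ht
  have hrxy : G.Reachable x y := reach_of_dist hxy (by omega)
  have h1 : G.dist x y ≤ G.dist x m + G.dist m y := (hrxy.trans hrmy.symm).dist_triangle_left y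
  have h2 := adj_dist hxa m
  have h3 := adj_dist hxb m
  have hxm : G.dist x m = k - t := by omega
  rcases hI (k - t) (by omega) x m a b hxm hxa hxb (by omega) (by omega) with h | h
  · exact hne h
  · exact hnab h

include hI hT h5 in
/-- Step 2 -/
lemma inc_step2 {x y a b : V} (hxy : G.dist x y = k) (hxa : G.Adj x a) (hxb : G.Adj x b)
    (hk : 2 ≤ k) (hay : G.dist a y + 1 = k) (hby : G.dist b y + 1 = k)
    (hne : a ≠ b) (hnab : ¬ G.Adj a b) {u v : V} (hyu : G.Adj y u) (hyv : G.Adj y v)
    (hau : G.dist a u + 2 ≤ k) (hbv : G.dist b v + 2 ≤ k) (huv : u = v ∨ G.Adj u v) :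
    False := by
  have hrxy : G.Reachable x y := reach_of_dist hxy (by omega)
  have hray : G.Reachable a y := hxa.symm.reachable.trans hrxy
  have hrby : G.Reachable b y := hxb.symm.reachable.trans hrxy
  rcases Nat.eq_or_lt_of_le hk with hk2 | hk3
  · have e1 : a = u := eq_of_dist_zero (hray.trans hyu.reachable) (by omega)
    have e2 : b = v := eq_of_dist_zero (hrby.trans hyv.reachable) (by omega)
    subst e1 e2
    rcases huv with h | h
    · exact hne h
    · exact hnab h
  rcases huv with rfl | huv
  · have h1 : G.dist u y = 1 := dist_eq_one_iff_adj.2 hyu.symm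
    exact inc_step1 hI hxy hxa hxb hk hne hnab (m := u) (t := 1) le_rfl h1 (by omega) (by omega)
  -- distances from x
  have d1 := adj_dist hxa u
  have d2 := adj_dist' hyu x
  have d3 := adj_dist hxb v
  have d4 := adj_dist' hyv x
  have hxu : G.dist x u = k - 1 := by omega
  have hxv : G.dist x v = k - 1 := by omega
  obtain ⟨e, hue, hve, hex⟩ := hT (k - 1) (by omega) u v x huv (by rw [G.dist_comm]; exact hxu)
    (by rw [G.dist_comm]; exact hxv) (by omega)
  have hxe : G.dist x e = (k - 3) + 1 := by rw [G.dist_comm]; omega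
  obtain ⟨e', hxe', he'e⟩ := closer hxe
  have d5 : G.dist e' u ≤ G.dist e' e + 1 := adj_dist' hue e'
  have d6 := adj_dist hxe' u
  have d5' : G.dist e' v ≤ G.dist e' e + 1 := adj_dist' hve e'
  have d6' := adj_dist hxe' v
  have i1 : e' = a ∨ G.Adj e' a := hI (k - 1) (by omega) x u e' a hxu hxe' hxa (by omega)
    (by omega)
  have i2 : e' = b ∨ G.Adj e' b := hI (k - 1) (by omega) x v e' b hxv hxe' hxb (by omega)
    (by omega)
  have hea : G.Adj e' a := by
    rcases i1 with h | h
    · subst h
      rcases i2 with h | h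
      · exact absurd h hne
      · exact absurd h hnab
    · exact h
  have heb : G.Adj e' b := by
    rcases i2 with h | h
    · subst h
      exact absurd hea.symm hnab
    · exact h
  -- distance of e' to y
  have d7 := adj_dist' hyu e'
  have d8 := adj_dist hxe' y
  have he'y : G.dist e' y = k - 1 := by omega
  obtain ⟨ga, haga, hega, hgay⟩ := hT (k - 1) (by omega) a e' y hea.symm (by omega) he'y (by omega)
  obtain ⟨gb, hbgb, hegb, hgby⟩ := hT (k - 1) (by omega) b e' y heb.symm (by omega) he'y (by omega)
  have hnb_ga : ¬ G.Adj b ga := by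
    intro h
    have e1 : G.dist a ga = 1 := dist_eq_one_iff_adj.2 haga
    have e2 : G.dist b ga = 1 := dist_eq_one_iff_adj.2 h
    exact inc_step1 hI hxy hxa hxb hk hne hnab (m := ga) (t := k - 2) (by omega) (by omega)
      (by omega) (by omega)
  have hna_gb : ¬ G.Adj a gb := by
    intro h
    have e1 : G.dist a gb = 1 := dist_eq_one_iff_adj.2 h
    have e2 : G.dist b gb = 1 := dist_eq_one_iff_adj.2 hbgb
    exact inc_step1 hI hxy hxa hxb hk hne hnab (m := gb) (t := k - 2) (by omega) (by omega)
      (by omega) (by omega)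
  rcases hI (k - 1) (by omega) e' y ga gb he'y hega hegb hgay hgby with h | h
  · subst h; exact hna_gb haga
  · have hxga : ¬ G.Adj x ga := by
      intro h; have := adj_dist h y; omega
    have hxgb : ¬ G.Adj x gb := by
      intro h; have := adj_dist h y; omega
    refine h5 x a ga gb b hxa haga h hbgb.symm hxb.symm hxga hxgb hna_gb hnab
      (fun h => hnb_ga h.symm) ?_ ?_ ?_ hne ?_
    · rintro rfl; omega
    · rintro rfl; omega
    · rintro rfl; omega
    · rintro rfl; omega

end inc

lemma inc_main (hG : Br G) {k : ℕ} (hk : 2 ≤ k) (hI : ∀ m < k, INC G m) (hT : ∀ m < k, TC G m) :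
    INC G k := by
  have h5 : NoC5 G := br_noC5 hG
  intro x y a b hxy hxa hxb hay hby
  by_contra hcon
  push Not at hcon
  obtain ⟨hne, hnab⟩ := hcon
  have hrxy : G.Reachable x y := reach_of_dist hxy (by omega)
  have hray : G.Reachable a y := hxa.symm.reachable.trans hrxy
  have hrby : G.Reachable b y := hxb.symm.reachable.trans hrxy
  obtain ⟨α, hα0, hαm, hαadj, hαd⟩ := geo (G := G) hray.symm (m := k - 1)
    (by rw [G.dist_comm]; omega)
  obtain ⟨β, hβ0, hβm, hβadj, hβd⟩ := geo (G := G) hrby.symm (m := k - 1)
    (by rw [G.dist_comm]; omega)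
  -- extended geodesics
  set α' : ℕ → V := fun i => if i = k then x else α i with hα'
  set β' : ℕ → V := fun i => if i = k then x else β i with hβ'
  have hα'adj : ∀ i < k, G.Adj (α' i) (α' (i + 1)) := by
    intro i hi
    by_cases h : i + 1 = k
    · have h2 : i = k - 1 := by omega
      have h3 : i ≠ k := by omega
      simp only [hα', h3, if_false, h, if_true]
      rw [h2, hαm]; exact hxa.symm
    · have h3 : i ≠ k := by omega
      simp only [hα', h3, if_false, h]
      exact hαadj i (by omega)
  have hβ'adj : ∀ i < k, G.Adj (β' i) (β' (i + 1)) := by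
    intro i hi
    by_cases h : i + 1 = k
    · have h2 : i = k - 1 := by omega
      have h3 : i ≠ k := by omega
      simp only [hβ', h3, if_false, h, if_true]
      rw [h2, hβm]; exact hxb.symm
    · have h3 : i ≠ k := by omega
      simp only [hβ', h3, if_false, h]
      exact hβadj i (by omega)
  have hα'0 : α' 0 = y := by simp only [hα']; rw [if_neg (by omega)]; exact hα0
  have hβ'0 : β' 0 = y := by simp only [hβ']; rw [if_neg (by omega)]; exact hβ0
  have hα'k : α' k = x := by simp [hα']
  have hβ'k : β' k = x := by simp [hβ']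
  have hα'd : ∀ i j, i ≤ j → j ≤ k → G.dist (α' i) (α' j) = j - i := by
    intro i j hij hj
    have h1 := dist_chain hα'adj hij hj
    have h2 := dist_chain hα'adj (Nat.zero_le i) (by omega : i ≤ k)
    have h3 := dist_chain hα'adj hj le_rfl
    have h4 := (reach_chain hα'adj (Nat.zero_le i) (by omega : i ≤ k)).dist_triangle_left (α' k)
    have h6 := (reach_chain hα'adj hij hj).dist_triangle_left (α' k)
    rw [hα'0] at h2 h4
    rw [hα'k] at h3 h4 h6
    have : G.dist y x = k := by rw [G.dist_comm]; exact hxy
    omega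
  have hβ'd : ∀ i j, i ≤ j → j ≤ k → G.dist (β' i) (β' j) = j - i := by
    intro i j hij hj
    have h1 := dist_chain hβ'adj hij hj
    have h2 := dist_chain hβ'adj (Nat.zero_le i) (by omega : i ≤ k)
    have h3 := dist_chain hβ'adj hj le_rfl
    have h4 := (reach_chain hβ'adj (Nat.zero_le i) (by omega : i ≤ k)).dist_triangle_left (β' k)
    have h6 := (reach_chain hβ'adj hij hj).dist_triangle_left (β' k)
    rw [hβ'0] at h2 h4
    rw [hβ'k] at h3 h4 h6
    have : G.dist y x = k := by rw [G.dist_comm]; exact hxy
    omega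
  have hα'1 : α' (k - 1) = a := by simp only [hα']; rw [if_neg (by omega)]; exact hαm
  have hβ'1 : β' (k - 1) = b := by simp only [hβ']; rw [if_neg (by omega)]; exact hβm
  -- disjointness
  have hdisj : ∀ i j, 1 ≤ i → i < k → j ≤ k → α' i ≠ β' j := by
    intro i j hi hi2 hj h
    have h1 := hα'd 0 i (by omega) (by omega)
    have h2 := hβ'd 0 j (by omega) (by omega)
    rw [hα'0] at h1
    rw [hβ'0, ← h] at h2
    obtain rfl : i = j := by omega
    have h3 := hα'd i (k - 1) (by omega) (by omega)
    have h4 := hβ'd i (k - 1) (by omega) (by omega)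
    rw [hα'1] at h3
    rw [hβ'1, ← h] at h4
    exact inc_step1 hI hxy hxa hxb hk hne hnab (m := α' i) (t := i) hi
      (by rw [G.dist_comm]; omega) (by rw [G.dist_comm]; omega) (by rw [G.dist_comm]; omega)
  -- the cycle
  set f : ℕ → V := fun i => if i ≤ k then α' i else β' (2 * k - i) with hf
  have hfadj : ∀ i < 2 * k, G.Adj (f i) (f (i + 1)) := by
    intro i hi
    simp only [hf]
    by_cases h1 : i + 1 ≤ k
    · rw [if_pos (by omega), if_pos h1]; exact hα'adj i (by omega)
    · by_cases h2 : i ≤ k
      · have : i = k := by omega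
        subst this
        rw [if_pos le_rfl, if_neg h1, hα'k]
        have := hβ'adj (i - 1) (by omega)
        rw [show i - 1 + 1 = i by omega, hβ'k] at this
        rw [show 2 * i - (i + 1) = i - 1 by omega]
        exact this.symm
      · rw [if_neg h2, if_neg h1]
        have := hβ'adj (2 * k - (i + 1)) (by omega)
        rw [show 2 * k - (i + 1) + 1 = 2 * k - i by omega] at this
        exact this.symm
  have hfcl : f (2 * k) = f 0 := by
    simp only [hf]
    rw [if_neg (by omega), if_pos (by omega), Nat.sub_self, hα'0, hβ'0]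
  have hfinj : ∀ i j, i < j → j < 2 * k → f i ≠ f j := by
    intro i j hij hj h
    simp only [hf] at h
    by_cases h1 : j ≤ k
    · rw [if_pos (by omega), if_pos h1] at h
      have := hα'd i j (by omega) h1
      rw [h, dist_self] at this
      omega
    · rw [if_neg h1] at h
      by_cases h2 : i ≤ k
      · rw [if_pos h2] at h
        rcases Nat.eq_zero_or_pos i with h0 | h0
        · subst h0
          rw [hα'0, ← hβ'0] at h
          have := hβ'd 0 (2 * k - j) (by omega) (by omega)
          rw [← h, dist_self] at this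
          omega
        · rcases Nat.lt_or_ge i k with h3 | h3
          · exact hdisj i _ h0 h3 (by omega) h
          · obtain rfl : i = k := by omega
            rw [hα'k, ← hβ'k] at h
            have := hβ'd (2 * i - j) i (by omega) (by omega)
            rw [← h, dist_self] at this
            omega
      · rw [if_neg h2] at h
        have := hβ'd (2 * k - j) (2 * k - i) (by omega) (by omega)
        rw [← h, dist_self] at this
        omega
  obtain ⟨i, j, hij, hj, hd⟩ := br_fun hG (N := 2 * k) (by omega) f hfadj hfcl hfinj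
  simp only [hf] at hd
  by_cases h1 : j ≤ k
  · rw [if_pos (by omega), if_pos h1] at hd
    have := hα'd i j (by omega) h1
    omega
  rw [if_neg h1] at hd
  by_cases h2 : i ≤ k
  swap
  · rw [if_neg h2, G.dist_comm] at hd
    have := hβ'd (2 * k - j) (2 * k - i) (by omega) (by omega)
    omega
  rw [if_pos h2] at hd
  rcases Nat.eq_zero_or_pos i with h0 | h0
  · subst h0
    rw [hα'0, ← hβ'0] at hd
    have := hβ'd 0 (2 * k - j) (by omega) (by omega)
    omega
  rcases Nat.lt_or_ge i k with h3 | h3
  swap
  · obtain rfl : i = k := by omega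
    rw [hα'k, ← hβ'k, G.dist_comm] at hd
    have := hβ'd (2 * i - j) i (by omega) (by omega)
    omega
  -- genuine cross pair
  obtain ⟨j', hj'⟩ : ∃ j', j' = 2 * k - j := ⟨_, rfl⟩
  rw [← hj'] at hd
  have hj1 : 1 ≤ j' := by omega
  have hj2 : j' < k := by omega
  have hd1 : G.dist (α' i) (β' j') < i + j' := by omega
  have hd2 : G.dist (α' i) (β' j') < (k - i) + (k - j') := by omega
  have ei := hα'd 0 i (by omega) (by omega)
  have ej := hβ'd 0 j' (by omega) (by omega)
  have ei2 := hα'd i (k - 1) (by omega) (by omega)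
  have ej2 := hβ'd j' (k - 1) (by omega) (by omega)
  have ei3 := hα'd i k (by omega) (by omega)
  have ej3 := hβ'd j' k (by omega) (by omega)
  have ei4 := hα'd 1 i (by omega) (by omega)
  have ej4 := hβ'd 1 j' (by omega) (by omega)
  have hy1 : G.Adj y (α' 1) := by have := hα'adj 0 (by omega); rwa [hα'0] at this
  have hy2 : G.Adj y (β' 1) := by have := hβ'adj 0 (by omega); rwa [hβ'0] at this
  have ra : G.Reachable a (α' i) := by
    have := reach_chain hα'adj (i := i) (j := k - 1) (by omega) (by omega)
    rw [hα'1] at this; exact this.symm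
  have rb : G.Reachable b (β' j') := by
    have := reach_chain hβ'adj (i := j') (j := k - 1) (by omega) (by omega)
    rw [hβ'1] at this; exact this.symm
  rw [hα'0] at ei
  rw [hβ'0] at ej
  rw [hα'1] at ei2
  rw [hβ'1] at ej2
  rw [hα'k] at ei3
  rw [hβ'k] at ej3
  by_cases hle : i + j' ≤ k
  · obtain ⟨u, v, hu, hv, hpu, hqv, huv⟩ := lemR hI hT (i + j') hle i j' rfl h0 hj1 y (α' i) (β' j')
      (by rw [G.dist_comm]; omega) (by rw [G.dist_comm]; omega) hd1
    have t1 := ra.dist_triangle_left u
    have t2 := rb.dist_triangle_left v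
    have t3 : G.dist a (α' i) = G.dist (α' i) a := G.dist_comm
    have t4 : G.dist b (β' j') = G.dist (β' j') b := G.dist_comm
    exact inc_step2 hI hT h5 hxy hxa hxb hk hay hby hne hnab hu hv (by omega) (by omega) huv
  · obtain ⟨u, v, hu, hv, hpu, hqv, huv⟩ := lemR hI hT ((k - i) + (k - j')) (by omega) (k - i)
      (k - j') rfl (by omega) (by omega) x (α' i) (β' j') (by omega) (by omega) hd2
    -- the swapped configuration
    have hyx : G.dist y x = k := by rw [G.dist_comm]; exact hxy
    have c1 := hα'd 1 k (by omega) (by omega)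
    have c2 := hβ'd 1 k (by omega) (by omega)
    rw [hα'k] at c1
    rw [hβ'k] at c2
    have c3 := hα'd 1 (k - 1) (by omega) (by omega)
    have c4 := hβ'd 1 (k - 1) (by omega) (by omega)
    rw [hα'1] at c3
    rw [hβ'1] at c4
    have hne1 : α' 1 ≠ β' 1 := hdisj 1 1 le_rfl (by omega) (by omega)
    have hnadj1 : ¬ G.Adj (α' 1) (β' 1) := by
      intro h
      exact inc_step2 hI hT h5 hxy hxa hxb hk hay hby hne hnab hy1 hy2
        (by rw [G.dist_comm]; omega) (by rw [G.dist_comm]; omega) (Or.inr h)
    have ra1 : G.Reachable (α' 1) (α' i) := reach_chain hα'adj (by omega) (by omega)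
    have rb1 : G.Reachable (β' 1) (β' j') := reach_chain hβ'adj (by omega) (by omega)
    have t1 := ra1.dist_triangle_left u
    have t2 := rb1.dist_triangle_left v
    exact inc_step2 hI hT h5 hyx hy1 hy2 hk (by omega) (by omega) hne1 hnadj1 hu hv (by omega)
      (by omega) huv

end Pool.Agent.W111.Bridged
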