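import Pool.Agent.W886.MZ.Stm1

/-!
# `NP` is not small in exponential time, even after finitely many changes of a random oracle
-/

set_option autoImplicit false

namespace Pool.Agent.W111.MZFIN2

open Filter MeasureTheory Pool.Agent.NPC Pool.Agent.H620R2.Gauge Pool.Agent.W911.KM
open Pool.Agent.W911.AL (fair Alt)
open Pool.Agent.H628R3.RO (randomOracle)
open Pool.Agent.W886.MZ

/-! ## Finite changes (after helper900, `Pool.Agent.W900.PM.Fin`) -/

theorem fair_eq : fair = randomOracle := by
  unfold fair Pool.Agent.W911.IB.law randomOracle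
  congr 1
  funext w
  unfold Pool.Agent.W911.IB.coin Pool.Agent.H628R3.RO.coin
  congr 2
  · rw [ENNReal.ofReal_div_of_pos (by norm_num)]
    simp
  · have : (1 : ℝ) - 1 / 2 = 1 / 2 := by norm_num
    show ENNReal.ofReal (1 - 1 / 2) = _
    rw [this, ENNReal.ofReal_div_of_pos (by norm_num)]
    simp

open Classical in
/-- the oracle with finitely many changes -/
noncomputable def flp (D : Finset (List Bool)) (A : Oracle) : Oracle :=
  fun z => if z ∈ D then !(A z) else A z

theorem map_flp (D : Finset (List Bool)) : randomOracle.map (flp D) = randomOracle := by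
  classical
  have h1 : flp D = fun (x : Oracle) z => (fun b : Bool => if z ∈ D then !b else b) (x z) := by
    funext A z
    unfold flp
    split_ifs <;> rfl
  rw [h1]
  unfold randomOracle
  rw [Measure.infinitePi_map_pi (fun _ : List Bool => Pool.Agent.H628R3.RO.coin)
    (f := fun z (b : Bool) => if z ∈ D then !b else b) (fun z => measurable_of_countable _)]
  congr 1
  funext z
  by_cases hz : z ∈ D
  · simp only [hz, if_true]
    unfold Pool.Agent.H628R3.RO.coin
    have hn : Measurable (fun b : Bool => !b) := measurable_of_countable _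
    rw [Measure.map_add _ _ hn, Measure.map_smul, Measure.map_smul, Measure.map_dirac' hn,
      Measure.map_dirac' hn]
    simp only [Bool.not_true, Bool.not_false]
    rw [add_comm]
  · simp only [hz, if_false]
    exact Measure.map_id

theorem ae_finite {P : Oracle → Prop} (h : ∀ᵐ A ∂randomOracle, P A) :
    ∀ᵐ O ∂randomOracle, ∀ A : Oracle, {x | A x ≠ O x}.Finite → P A := by
  classical
  have h1 : ∀ D : Finset (List Bool), ∀ᵐ O ∂randomOracle, P (flp D O) := by
    intro D
    have hm : Measurable (flp D) := by
      rw [measurable_pi_iff]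
      intro z
      unfold flp
      by_cases hz : z ∈ D
      · simp only [hz, if_true]
        exact (measurable_of_countable (fun b : Bool => !b)).comp (measurable_pi_apply z)
      · simp only [hz, if_false]
        exact measurable_pi_apply z
    have h2 : MeasurePreserving (flp D) randomOracle randomOracle := ⟨hm, map_flp D⟩
    exact h2.quasiMeasurePreserving.ae h
  rw [← ae_all_iff] at h1
  filter_upwards [h1] with O hO A hA
  have h2 := hO hA.toFinset
  have h3 : flp hA.toFinset O = A := by
    funext z
    unfold flp
    by_cases hz : A z = O z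
    · rw [if_neg (by simpa using hz), hz]
    · rw [if_pos (by simpa using hz)]
      revert hz
      cases A z <;> cases O z <;> simp
  rwa [h3] at h2

/-! ## The join -/

/-- questions to `A` as questions to the join -/
def liftD (D : List Bool → List Bool) (v : List Bool) : List Bool :=
  if (D v).head? = some false then false :: D v else D v

theorem isFP_lift {A : Oracle} (B : Set (List Bool)) {F : List Bool → List Bool}
    (hF : IsFP A F) : IsFP (join A B) F := by
  obtain ⟨M, hM⟩ := hF
  have hD := Pool.Agent.H622R2.poly_of_polyTime M.poly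
  refine ⟨⟨liftD M.D, Pool.Agent.H622R2.polyTime_of_poly_list (Poly.ite (Poly.decide_eq (Poly.head? hD)
    (NPC.Poly.const _)) (Poly.cons (NPC.Poly.const false) hD) hD), M.p⟩, fun x => ?_⟩
  rw [← hM x]
  unfold Alg.out
  simp only
  generalize M.p.eval x.length = n
  generalize ([] : List Bool) = a
  induction n generalizing a with
  | zero => rfl
  | succ n ih =>
    rw [Alg.run, Alg.run]
    simp only [liftD]
    rcases hq : M.D (pairBits x a) with _ | ⟨c, q⟩
    · simp
    · cases c with
      | true => simp
      | false =>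
        simp only [List.head?_cons, if_true]
        exact ih _

theorem nullQP_join {A : Oracle} (B : Set (List Bool)) {c : ℕ} {X : Set (Set (List Bool))}
    (h : NullQP A c X) : NullQP (join A B) c X := by
  obtain ⟨d, hd, F, ⟨G, hG, hFG⟩, hFd⟩ := h
  exact ⟨d, hd, F, ⟨G, isFP_lift B hG, hFG⟩, hFd⟩

/-! ## The first level -/

theorem isNP_of_sigma {A : Oracle} {L : Set (List Bool)}
    (h : Pool.Agent.W911.AL.IsSigma A (fun _ => 0 + 1) L) :
    Pool.Agent.H620R2.Gauge.IsNP A L := by
  obtain ⟨V, p, hV, hx⟩ := h
  refine ⟨fun y => V (Pool.Agent.W911.AL.gg p 1 y), p, hV.precomp (Pool.Agent.W911.AL.poly_gg p 1),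
    fun x => ?_⟩
  rw [hx x]
  exact (Pool.Agent.W911.AL.quant_alt p 1 V x 1 0 true x [] (by omega) rfl).symm

theorem sigma_empty (A : Oracle) : Pool.Agent.W911.AL.IsSigma A (fun _ => 0) ∅ := by
  refine ⟨fun _ => [], 0, IsFP.of_poly (NPC.Poly.const _), fun x => ?_⟩
  simp [Alt]

theorem task : Pool.Agent.W886.MZ.S_FIN2 := by
  unfold S_FIN2
  refine ae_finite (P := fun A => ∀ c, ¬ NullQP A c {L | IsNP A L}) ?_
  have h := km_ae
  rw [fair_eq] at h
  filter_upwards [h] with A hA c hc
  obtain ⟨L, hL, h1⟩ := hA 0 c
  exact h1 ∅ (sigma_empty A) {L | IsNP A L} (isNP_of_sigma hL) (nullQP_join ∅ hc)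

end Pool.Agent.W111.MZFIN2
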